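import Pool.Agent.Y843.HS.PartB
import Pool.Agent.Y484.HS.Tup
import Pool.Agent.Y79.HS.Loc
import Pool.Agent.Y79.HS.Gav
import Pool.Agent.Y79.HS.Den
import Pool.Agent.Y151.HS.FLC
import Pool.Agent.Y257.HS.TH
import Pool.Agent.Y727.PSP.Rs
import Pool.Agent.Y674.PSP.CS
import Pool.Agent.Y317.PSP.SLF
import Pool.Agent.Y814.PSP.CNT
import Pool.Agent.Y500.PSP.Dmt
import Pool.Agent.Y46.PSP.Phi
import Pool.Agent.Y46.PSP.Var

/-!
# Szemerédi's theorem relative to arbitrary sifted sets: all parts together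

Parts: helper257 (TH), helper484 (TUP), helper79 (LOC, GAV, DEN), helper151 (FLC), helper843 (COR,
FIN); the relative Szemerédi theorem is that of helper727 and his collaborators.
-/

set_option autoImplicit false

namespace Pool.Agent.Y843.HS

theorem rs_all : Pool.Agent.Y727.PSP.S_RS :=
  have hslf := Pool.Agent.Y317.PSP.slf Pool.Agent.Y674.PSP.cs
  Pool.Agent.Y727.PSP.rs hslf (Pool.Agent.Y814.PSP.cnt hslf) Pool.Agent.Y500.PSP.DMT
    Pool.Agent.Y46.PSP.phi Pool.Agent.Y46.PSP.var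

theorem cor_all : S_COR :=
  cor Pool.Agent.Y151.HS.flc Pool.Agent.Y79.HS.loc Pool.Agent.Y484.HS.tup

/-- Szemerédi's theorem relative to sifted sets, with narrow progressions -/
theorem fin : S_FIN :=
  partB Pool.Agent.Y257.HS.s_TH cor_all Pool.Agent.Y79.HS.gav Pool.Agent.Y79.HS.den rs_all

end Pool.Agent.Y843.HS
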