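import Pool.Agent.Y843.HS.Lfm

/-!
# Windows: from the relative Szemerédi theorem to progressions of integers
-/

set_option autoImplicit false

namespace Pool.Agent.Y843.HS

open Finset
open Pool.Agent.H602R3.DHJ (av av_const av_mono av_nonneg)
open Pool.Agent.Y727.PSP
open Pool.Agent.Y79.PSP.MK (rp_mem rp_inj)

section

variable {N : ℕ} [NeZero N]

omit [NeZero N] in
theorem rp_nat {u : ℕ} (h1 : 1 ≤ u) (h2 : u < N) : rp ((u : ℕ) : ZMod N) = u := by
  unfold rp
  have h3 : ((u : ℕ) : ZMod N).val = u := ZMod.val_natCast_of_lt h2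
  rw [if_neg, h3]
  intro h
  rw [h, ZMod.val_zero] at h3
  omega

/-- the number of the residues in the first half -/
theorem card_half : (N - 1) / 2 ≤ ((univ : Finset (ZMod N)).filter (fun a => 2 * rp a < N)).card := by
  have h1 : (Icc 1 ((N - 1) / 2)).card ≤
      ((univ : Finset (ZMod N)).filter (fun a => 2 * rp a < N)).card := by
    apply card_le_card_of_injOn (fun u => ((u : ℕ) : ZMod N))
    · intro u hu
      rw [mem_coe, mem_Icc] at hu
      rw [mem_coe, mem_filter]
      refine ⟨mem_univ _, ?_⟩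
      rw [rp_nat hu.1 (by omega)]
      omega
    · intro u hu v hv h
      rw [mem_coe, mem_Icc] at hu hv
      have h2 := congrArg rp h
      simp only at h2
      rwa [rp_nat hu.1 (by omega), rp_nat hv.1 (by omega)] at h2
  rwa [Nat.card_Icc, Nat.add_sub_cancel] at h1

/-- a progression of residues in the first half is a progression of integers -/
theorem ap_of_rp {k : ℕ} (hk : 2 ≤ k) {a d : ZMod N} (hd : d ≠ 0)
    (h : ∀ j < k, 2 * rp (a + (j : ZMod N) * d) < N) :
    ∃ b D : ℕ, 1 ≤ D ∧ D < N ∧ ∀ j < k, ∃ i < k, b + j * D = rp (a + (i : ZMod N) * d) := by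
  set c : ℕ → ℕ := fun j => rp (a + (j : ZMod N) * d) with hc
  have hc1 : ∀ j, 1 ≤ c j := fun j => (rp_mem _).1
  have hcast : ∀ j, ((c j : ℕ) : ZMod N) = a + (j : ZMod N) * d := fun j => rp_cast _
  set D : ℤ := (c 1 : ℤ) - c 0 with hD
  have key : ∀ j, j < k → (c j : ℤ) = c 0 + j * D := by
    intro j
    induction j with
    | zero => intro _; simp
    | succ j ih =>
      intro hj
      rcases Nat.eq_zero_or_pos j with h0 | h0
      · subst h0
        rw [hD]; push_cast; ring
      · have ih' := ih (by omega)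
        have e1 : ((((c (j + 1) : ℤ) + c 0) - (c j + c 1) : ℤ) : ZMod N) = 0 := by
          push_cast
          rw [hcast, hcast, hcast, hcast]
          push_cast
          ring
        rw [ZMod.intCast_zmod_eq_zero_iff_dvd] at e1
        have b1 := h (j + 1) hj
        have b2 := h j (by omega)
        have b3 := h 0 (by omega)
        have b4 := h 1 (by omega)
        have b5 := hc1 (j + 1)
        have b6 := hc1 j
        have b7 := hc1 0
        have b8 := hc1 1
        change 2 * c (j + 1) < N at b1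
        change 2 * c j < N at b2
        change 2 * c 0 < N at b3
        change 2 * c 1 < N at b4
        have e2 : ((c (j + 1) : ℤ) + c 0) - (c j + c 1) = 0 := by
          apply Int.eq_zero_of_abs_lt_dvd e1
          rw [abs_lt]
          constructor <;> omega
        have e3 : (c (j + 1) : ℤ) = c j + D := by rw [hD]; linarith
        rw [e3, ih']
        push_cast
        ring
  have b3 := h 0 (by omega)
  have b4 := h 1 (by omega)
  change 2 * c 0 < N at b3
  change 2 * c 1 < N at b4
  have hD0 : D ≠ 0 := by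
    intro h0
    apply hd
    have e1 : ((c 1 : ℕ) : ZMod N) = ((c 0 : ℕ) : ZMod N) := by
      have : c 1 = c 0 := by omega
      rw [this]
    rw [hcast, hcast] at e1
    simpa using e1
  rcases lt_or_gt_of_ne hD0 with hneg | hpos
  · refine ⟨c (k - 1), D.natAbs, by omega, by omega, ?_⟩
    intro j hj
    refine ⟨k - 1 - j, by omega, ?_⟩
    have e1 := key (k - 1) (by omega)
    have e2 := key (k - 1 - j) (by omega)
    have e3 : ((c (k - 1) + j * D.natAbs : ℕ) : ℤ) = c (k - 1 - j) := by
      push_cast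
      rw [e1, e2, abs_of_neg hneg, Nat.cast_sub (show j ≤ k - 1 by omega)]
      ring
    exact_mod_cast e3
  · refine ⟨c 0, D.natAbs, by omega, by omega, ?_⟩
    intro j hj
    refine ⟨j, hj, ?_⟩
    have e2 := key j hj
    have e3 : ((c 0 + j * D.natAbs : ℕ) : ℤ) = c j := by
      push_cast
      rw [e2, abs_of_pos hpos]
    exact_mod_cast e3

/-- a nontrivial progression from a large count -/
theorem exists_ne {k : ℕ} {f : ZMod N → ℝ} {w c : ℝ} (hf : ∀ a, 0 ≤ f a ∧ f a ≤ w)
    (hc : c ≤ av (fun p : ZMod N × ZMod N => ∏ j ∈ range k, f (p.1 + (j : ZMod N) * p.2)))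
    (hw : w ^ k / N < c) : ∃ a d : ZMod N, d ≠ 0 ∧ ∀ j < k, f (a + (j : ZMod N) * d) ≠ 0 := by
  classical
  by_contra hcon
  push Not at hcon
  have hN : (0 : ℝ) < N := by exact_mod_cast Nat.pos_of_ne_zero (NeZero.ne N)
  have hw0 : 0 ≤ w := (hf 0).1.trans (hf 0).2
  have h1 : ∀ p : ZMod N × ZMod N, ∏ j ∈ range k, f (p.1 + (j : ZMod N) * p.2) ≤
      if p.2 = 0 then w ^ k else 0 := by
    intro p
    split_ifs with h
    · calc ∏ j ∈ range k, f (p.1 + (j : ZMod N) * p.2) ≤ ∏ _j ∈ range k, w :=
            prod_le_prod (fun j _ => (hf _).1) (fun j _ => (hf _).2)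
        _ = w ^ k := by rw [prod_const, card_range]
    · obtain ⟨j, hj, hj0⟩ := hcon p.1 p.2 h
      exact (prod_eq_zero (mem_range.2 hj) hj0).le
  have h2 := hc.trans (av_mono h1)
  have h3 : av (fun p : ZMod N × ZMod N => if p.2 = 0 then w ^ k else 0) = w ^ k / N := by
    unfold av
    rw [Fintype.sum_prod_type]
    simp only [sum_ite_eq', mem_univ, if_true, sum_const, card_univ, Fintype.card_prod, ZMod.card,
      nsmul_eq_mul]
    push_cast
    field_simp
  rw [h3] at h2
  linarith

end

open Classical in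
/-- the function in the window at `x` -/
noncomputable def fX (T : Finset ℕ) (w : ℝ) (N x : ℕ) (a : ZMod N) : ℝ :=
  if x + rp a ∈ T ∧ 2 * rp a < N then w else 0

/-- the sum of the densities in the windows -/
theorem sum_av_fX {T : Finset ℕ} {A X N : ℕ} [NeZero N] (hT : T ⊆ Ioc A (A + X)) {w : ℝ} (hw : 0 ≤ w)
    (hN : 3 ≤ N) (hTN : 2 * N ≤ T.card) :
    w * T.card / 8 ≤ ∑ x ∈ Ioc A (A + X), av (fX T w N x) := by
  classical
  have hN0 : (0 : ℝ) < N := by exact_mod_cast Nat.pos_of_ne_zero (NeZero.ne N)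
  unfold av
  rw [← sum_div, ZMod.card, le_div_iff₀ hN0, sum_comm]
  have h1 : ∀ a ∈ (univ : Finset (ZMod N)).filter (fun a => 2 * rp a < N),
      w * (T.card / 2) ≤ ∑ x ∈ Ioc A (A + X), fX T w N x a := by
    intro a ha
    rw [mem_filter] at ha
    have h2 : ∑ x ∈ Ioc A (A + X), fX T w N x a =
        (((Ioc A (A + X)).filter (fun x => x + rp a ∈ T)).card : ℝ) * w := by
      rw [← nsmul_eq_mul, ← sum_const, sum_filter]
      apply sum_congr rfl
      intro x _
      unfold fX
      simp [ha.2]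
    rw [h2]
    have h3 : T.card ≤ ((Ioc A (A + X)).filter (fun x => x + rp a ∈ T)).card + rp a := by
      have h4 : T ⊆ (Ioc A (A + rp a)) ∪
          ((Ioc A (A + X)).filter (fun x => x + rp a ∈ T)).image (fun x => x + rp a) := by
        intro t ht
        have h5 := mem_Ioc.1 (hT ht)
        rw [mem_union, mem_Ioc, mem_image]
        rcases le_or_gt t (A + rp a) with h6 | h6
        · exact Or.inl ⟨h5.1, h6⟩
        · refine Or.inr ⟨t - rp a, ?_, by omega⟩
          rw [mem_filter, mem_Ioc]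
          refine ⟨⟨by omega, by omega⟩, ?_⟩
          rwa [show t - rp a + rp a = t by omega]
      refine (card_le_card h4).trans ((card_union_le _ _).trans ?_)
      rw [Nat.card_Ioc]
      have := card_image_le (s := (Ioc A (A + X)).filter (fun x => x + rp a ∈ T))
        (f := fun x => x + rp a)
      omega
    have h5 := (rp_mem a).2
    have h6 : (T.card : ℝ) / 2 ≤ (((Ioc A (A + X)).filter (fun x => x + rp a ∈ T)).card : ℝ) := by
      have : T.card ≤ 2 * ((Ioc A (A + X)).filter (fun x => x + rp a ∈ T)).card := by omega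
      have : (T.card : ℝ) ≤ 2 * (((Ioc A (A + X)).filter (fun x => x + rp a ∈ T)).card : ℝ) := by
        exact_mod_cast this
      linarith
    rw [mul_comm w]
    exact mul_le_mul_of_nonneg_right h6 hw
  have h2 : ∑ a ∈ (univ : Finset (ZMod N)).filter (fun a => 2 * rp a < N),
      ∑ x ∈ Ioc A (A + X), fX T w N x a ≤ ∑ a : ZMod N, ∑ x ∈ Ioc A (A + X), fX T w N x a := by
    apply sum_le_sum_of_subset_of_nonneg (filter_subset _ _)
    intro a _ _
    apply sum_nonneg
    intro x _
    unfold fX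
    split_ifs
    · exact hw
    · exact le_rfl
  refine le_trans ?_ h2
  refine le_trans ?_ (sum_le_sum h1)
  rw [sum_const, nsmul_eq_mul]
  have h3 := card_half (N := N)
  have h4 : (N : ℝ) / 4 ≤ (((univ : Finset (ZMod N)).filter (fun a => 2 * rp a < N)).card : ℝ) := by
    have h5 : N ≤ 4 * ((univ : Finset (ZMod N)).filter (fun a => 2 * rp a < N)).card := by omega
    have h6 : (N : ℝ) ≤ 4 * (((univ : Finset (ZMod N)).filter (fun a => 2 * rp a < N)).card : ℝ) := by
      exact_mod_cast h5
    linarith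
  calc w * T.card / 8 * N = (N : ℝ) / 4 * (w * (T.card / 2)) := by ring
    _ ≤ _ := mul_le_mul_of_nonneg_right h4 (by positivity)

open Classical in
/-- a good window -/
theorem exists_window {k : ℕ} {ν : ℕ → ℝ} {A X N : ℕ} [NeZero N] {η δ : ℝ} {F : ℕ → ZMod N → ℝ}
    (hX : 1 ≤ X) (hF : ∀ x a, 0 ≤ F x a ∧ F x a ≤ nuX ν N x a)
    (h1 : ∑ x ∈ Ioc A (A + X), |av (nuX ν N x) - 1| ≤ η * X)
    (h2 : (((Ioc A (A + X)).filter (fun x => ¬ LFk k N (nuX ν N x) η)).card : ℝ) ≤ η * X)
    (h3 : δ * X ≤ ∑ x ∈ Ioc A (A + X), av (F x)) (hη : 4 * η < δ) (hη0 : 0 ≤ η) :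
    ∃ x ∈ Ioc A (A + X), LFk k N (nuX ν N x) η ∧ δ / 2 ≤ av (F x) := by
  by_contra hcon
  push Not at hcon
  have hX' : (0 : ℝ) < X := by exact_mod_cast hX
  have hcard : (Ioc A (A + X)).card = X := by rw [Nat.card_Ioc]; omega
  have h4 : ∀ x ∈ Ioc A (A + X), av (F x) ≤ δ / 2 +
      ((if ¬ LFk k N (nuX ν N x) η then 1 else 0) + |av (nuX ν N x) - 1|) := by
    intro x hx
    by_cases h5 : LFk k N (nuX ν N x) η
    · have h6 := hcon x hx h5
      rw [if_neg (not_not.2 h5)]
      have := abs_nonneg (av (nuX ν N x) - 1)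
      linarith
    · rw [if_pos h5]
      have h6 : av (F x) ≤ av (nuX ν N x) := av_mono fun a => (hF x a).2
      have h7 := le_abs_self (av (nuX ν N x) - 1)
      linarith
  have h5 := h3.trans (sum_le_sum h4)
  rw [sum_add_distrib, sum_add_distrib, sum_const, hcard, nsmul_eq_mul] at h5
  have h6 : ∑ x ∈ Ioc A (A + X), (if ¬ LFk k N (nuX ν N x) η then (1 : ℝ) else 0) =
      (((Ioc A (A + X)).filter (fun x => ¬ LFk k N (nuX ν N x) η)).card : ℝ) := by
    rw [card_filter]
    push_cast
    rfl
  rw [h6] at h5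
  have h7 : δ * X ≤ X * (δ / 2) + (η * X + η * X) := by linarith
  have h8 : 4 * η * X < δ * X := mul_lt_mul_of_pos_right hη hX'
  nlinarith

end Pool.Agent.Y843.HS
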