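import Pool.Agent.Y843.HS.CorC

/-!
# The correlations of the weight: assembly
-/

set_option autoImplicit false

namespace Pool.Agent.Y843.HS

open Finset

theorem nu_prod (Z : ℕ → Finset ℕ) (s z R : ℕ) (θ : Finset ℕ → ℝ) {m : ℕ} (u : Fin m → ℕ) (x : ℕ) :
    ∏ i, nu Z s z R θ (x + u i) = Fx Z s z R θ u x / (VV Z s z * qq Z z R θ) ^ m := by
  unfold nu Fx
  rw [prod_div_distrib, prod_const, card_univ, Fintype.card_fin]

/-- the final inequality -/
theorem fin_ineq {S X Vq ρ τ τ' E2 δ G CL CT κ CC w V q P A A' : ℝ} {m : ℕ}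
    (hX : 0 < X) (hV : 0 < V) (hq : 0 < q) (hVq : Vq = V * q)
    (hρ : ρ = P / V ^ m) (hτ : τ = A / q ^ m) (hτ' : τ' = A' / q ^ m)
    (h1 : |S - X * P * A| ≤ w * (X * P * A') + E2)
    (h2 : E2 ≤ δ * (X * Vq ^ m))
    (h3 : 1 - δ ≤ ρ) (h4 : ρ ≤ CL) (h5 : |τ - 1| ≤ G * (CT - 1 + κ)) (h6 : τ' ≤ G * CT)
    (hw0 : 0 ≤ w) (hw : w * G ≤ δ) (hκ : G * κ ≤ δ) (hδ : 0 < δ) (hδ1 : δ ≤ 1)
    (hCL : 1 ≤ CL) (hCT : 1 ≤ CT) (hCC : CL * CT ≤ CC) (hG : 0 ≤ G) :
    |S / Vq ^ m / X - 1| ≤ 4 * δ + (G + 4) * (CC - 1) := by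
  have hVq0 : 0 < Vq := by rw [hVq]; positivity
  have hVqm : 0 < Vq ^ m := by positivity
  have hρ0 : 0 ≤ ρ := by linarith
  have hCLCC : CL ≤ CC := (le_mul_of_one_le_right (by linarith) hCT).trans hCC
  have e0 : S / Vq ^ m / X - 1 = (S - X * P * A) / (X * Vq ^ m) + (ρ * τ - 1) := by
    rw [hρ, hτ, hVq, mul_pow]
    field_simp
    ring
  have e1 : |(S - X * P * A) / (X * Vq ^ m)| ≤ w * (ρ * τ') + δ := by
    rw [abs_div, abs_of_pos (show 0 < X * Vq ^ m by positivity), div_le_iff₀ (by positivity)]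
    have e2 : (w * (ρ * τ') + δ) * (X * Vq ^ m) = w * (X * P * A') + δ * (X * Vq ^ m) := by
      rw [hρ, hτ', hVq, mul_pow]
      field_simp
    rw [e2]
    linarith
  have e3 : w * (ρ * τ') ≤ δ + (CC - 1) := by
    have a1 : ρ * τ' ≤ CL * (G * CT) := by
      calc ρ * τ' ≤ ρ * (G * CT) := mul_le_mul_of_nonneg_left h6 hρ0
        _ ≤ CL * (G * CT) := mul_le_mul_of_nonneg_right h4 (by positivity)
    have a2 : w * (ρ * τ') ≤ w * (CL * (G * CT)) := mul_le_mul_of_nonneg_left a1 hw0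
    have a3 : w * (CL * (G * CT)) = (w * G) * (CL * CT) := by ring
    have a4 : (w * G) * (CL * CT) ≤ δ * CC := mul_le_mul hw hCC (by positivity) hδ.le
    have a5 : δ * CC ≤ δ + (CC - 1) := by
      have : 0 ≤ (1 - δ) * (CC - 1) := mul_nonneg (by linarith) (by linarith)
      linarith
    linarith
  have e4 : |ρ * τ - 1| ≤ (δ + (CC - 1)) + (G * (CC - 1) + (δ + (CC - 1))) := by
    have a1 : ρ * τ - 1 = (ρ - 1) + ρ * (τ - 1) := by ring
    have a2 : |ρ - 1| ≤ δ + (CC - 1) := by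
      rw [abs_le]
      constructor <;> linarith
    have a3 : |ρ * (τ - 1)| ≤ G * (CC - 1) + (δ + (CC - 1)) := by
      rw [abs_mul, abs_of_nonneg hρ0]
      calc ρ * |τ - 1| ≤ CL * (G * (CT - 1 + κ)) := by
            apply mul_le_mul h4 h5 (abs_nonneg _) (by linarith)
        _ = G * (CL * CT - CL) + CL * (G * κ) := by ring
        _ ≤ G * (CC - 1) + CC * δ := by
            have b1 : G * (CL * CT - CL) ≤ G * (CC - 1) := mul_le_mul_of_nonneg_left (by linarith) hG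
            have b2 : CL * (G * κ) ≤ CL * δ := mul_le_mul_of_nonneg_left hκ (by linarith)
            have b3 : CL * δ ≤ CC * δ := mul_le_mul_of_nonneg_right hCLCC hδ.le
            linarith
        _ ≤ G * (CC - 1) + (δ + (CC - 1)) := by
            have : 0 ≤ (1 - δ) * (CC - 1) := mul_nonneg (by linarith) (by linarith)
            linarith
    rw [a1]
    exact (abs_add_le _ _).trans (add_le_add a2 a3)
  rw [e0]
  refine (abs_add_le _ _).trans ?_
  have e5 : (G + 4) * (CC - 1) = G * (CC - 1) + 4 * (CC - 1) := by ring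
  have e6 : 0 ≤ CC - 1 := by linarith
  linarith

theorem Sv_mono {r s R a b : ℕ} {Z : ℕ → Finset ℕ} (hZ : Sv r s R Z) (ha : s ≤ a) (hb : b ≤ R) :
    Sv r a b Z := by
  intro p hp
  rw [Pr_mem] at hp
  exact hZ p (Pr_mem.2 ⟨⟨by omega, by omega⟩, hp.2⟩)

/-- (COR) -/
theorem cor (hF : S_FLC) (hL : S_LOC) (hT : S_TUP) : S_COR := by
  classical
  intro r M C
  obtain ⟨CF, hCF1, hCF⟩ := FLc_of hF
  obtain ⟨KL, hKL⟩ := LOCu hL r M
  obtain ⟨KT, hKT⟩ := TUPu hT r M
  obtain ⟨c, hc1, hc⟩ := EE_tower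
  refine ⟨2 * C * M + CF + 4 * r * M + 1, ?_⟩
  intro ε hε
  set δ : ℝ := min ε 1 / 4 with hδ
  have hδ0 : 0 < δ := by rw [hδ]; positivity
  have hδ1 : δ ≤ 1 := by
    rw [hδ]
    have := min_le_right ε 1
    linarith
  have hδε : 4 * δ ≤ ε := by
    rw [hδ]
    have := min_le_left ε 1
    linarith
  obtain ⟨g, hg1, hg2⟩ := exists_g c (KT + 2 * r * M) (CF * (M * r + 1)) δ hδ0
  set G : ℝ := (c * 2 ^ g) ^ (KT + 2 * r * M) with hG
  have hcg : (1 : ℝ) ≤ c * 2 ^ g := by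
    have : (1 : ℝ) ≤ 2 ^ g := one_le_pow₀ (by norm_num)
    nlinarith
  have hG1 : 1 ≤ G := one_le_pow₀ hcg
  obtain ⟨s₀, hs₀⟩ := hKL δ hδ0
  obtain ⟨KG, hKG⟩ := exists_nat_ge (G + 4)
  refine ⟨g, max KG (max KL KT), max s₀ (max (CF * (M * r + 1)) (2 * r + 1)), ?_⟩
  intro s hs
  obtain ⟨n1, hn1⟩ := exists_nat_ge (G * KT / δ)
  obtain ⟨n2, hn2⟩ := exists_nat_ge (1 / δ)
  refine ⟨g + (s + n1 + n2 + KT + 1), ?_⟩
  intro J A X hJ hX Z hZ θ hθ m hm u
  set z := 2 ^ 2 ^ (J - g) with hz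
  set R := 2 ^ 2 ^ J with hR
  have hzJ : s + n1 + n2 + KT + 1 ≤ z := by
    rw [hz]
    exact (show s + n1 + n2 + KT + 1 ≤ J - g by omega).trans (tower_ge _)
  have hzR : z ≤ R := by
    rw [hz, hR]
    exact Nat.pow_le_pow_right (by norm_num) (Nat.pow_le_pow_right (by norm_num) (Nat.sub_le _ _))
  have hsz : s ≤ z := by omega
  have hs1 : s₀ ≤ s := (le_max_left _ _).trans hs
  have hs2 : CF * (M * r + 1) ≤ s := (le_max_left _ _).trans ((le_max_right _ _).trans hs)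
  have hs3 : 2 * r + 1 ≤ s := (le_max_right _ _).trans ((le_max_right _ _).trans hs)
  have hZ1 : Sv r s z Z := Sv_mono hZ le_rfl hzR
  have hZ2 : Sv r z R Z := Sv_mono hZ hsz le_rfl
  have hz0 : (0 : ℝ) < z := by exact_mod_cast (show 0 < z by omega)
  have hR0 : (0 : ℝ) < R := by exact_mod_cast (show 0 < R by omega)
  have hEz := one_le_EE s z
  have hER := one_le_EE z R
  have hEz' : EE s z ≤ z := EE_le_nat (by omega)
  have hER' : EE z R ≤ c * 2 ^ g := hc g J (by omega)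
  have hER'' : EE z R ≤ R := EE_le_nat (by omega)
  -- `V` and `q`
  set V := VV Z s z with hV
  set q := qq Z z R θ with hq
  have hV1 : 1 / (R : ℝ) ^ (2 * r) ≤ V := by
    refine le_trans ?_ (VV_ge (by omega) hZ1)
    apply one_div_le_one_div_of_le (by positivity)
    apply pow_le_pow_left₀ (by positivity)
    exact hEz'.trans (by exact_mod_cast hzR)
  have hq1 : 1 / EE z R ^ (2 * r) ≤ q := (VV_ge (by omega) hZ2).trans hθ.lo
  have hq2 : 1 / (R : ℝ) ^ (2 * r) ≤ q := by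
    refine le_trans ?_ hq1
    apply one_div_le_one_div_of_le (by positivity)
    exact pow_le_pow_left₀ (by positivity) hER'' _
  have hV0 : 0 < V := lt_of_lt_of_le (by positivity) hV1
  have hq0 : 0 < q := lt_of_lt_of_le (by positivity) hq2
  -- the raw correlation
  have hbm : CF * (m * r + 1) ≤ 2 ^ g := by
    refine le_trans ?_ hg1
    apply Nat.mul_le_mul_left
    have := Nat.mul_le_mul_right r hm
    omega
  have hsm : CF * (m * r + 1) ≤ s := by
    refine le_trans ?_ hs2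
    apply Nat.mul_le_mul_left
    have := Nat.mul_le_mul_right r hm
    omega
  have hraw := corr_raw (C := C) hCF hbm hsm hZ1 hθ u A X
  rw [← hz] at hraw
  set P := ∏ p ∈ Pr s z, (1 - ((Om Z u p).card : ℝ) / p) with hP
  set AA := ∑ U ∈ Fintype.piFinset (fun _ : Fin m => (Pr z R).powerset), aU Z θ u U with hAA
  set AB := ∑ U ∈ Fintype.piFinset (fun _ : Fin m => (Pr z R).powerset), |aU Z θ u U| with hAB
  have hXR : (R : ℝ) ^ (2 * C * M + CF + 4 * r * M + 1) ≤ X := by exact_mod_cast hX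
  have hX0 : (0 : ℝ) < X := lt_of_lt_of_le (by positivity) hXR
  -- the local factors
  obtain ⟨hl1, hl2⟩ := hs₀ m hm s z hs1 Z hZ1 u
  rw [← hP, ← hV] at hl1 hl2
  -- the tuples
  obtain ⟨ht1, ht2⟩ := hKT m hm z R (by omega) Z hZ2 θ hθ.abs u
  rw [← hAA, ← hq] at ht1
  rw [← hAB] at ht2
  have hVm : 0 < V ^ m := by positivity
  have hqm : 0 < q ^ m := by positivity
  have hG' : EE z R ^ KT / q ^ m ≤ G := by
    rw [div_le_iff₀ hqm]
    have a1 : EE z R ^ (KT + 2 * r * m) ≤ G := by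
      rw [hG]
      refine (pow_le_pow_left₀ (by positivity) hER' _).trans (pow_le_pow_right₀ hcg ?_)
      have := Nat.mul_le_mul_left (2 * r) hm
      omega
    have a2 : 1 ≤ EE z R ^ (2 * r * m) * q ^ m := by
      rw [pow_mul, ← mul_pow]
      apply one_le_pow₀
      rw [div_le_iff₀ (by positivity)] at hq1
      linarith
    calc EE z R ^ KT = EE z R ^ KT * 1 := (mul_one _).symm
      _ ≤ EE z R ^ KT * (EE z R ^ (2 * r * m) * q ^ m) :=
          mul_le_mul_of_nonneg_left a2 (by positivity)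
      _ = EE z R ^ (KT + 2 * r * m) * q ^ m := by rw [pow_add]; ring
      _ ≤ G * q ^ m := mul_le_mul_of_nonneg_right a1 hqm.le
  set CL := Coll KL Z s z u with hCL
  set CT := Coll KT Z z R u with hCT
  have hCL1 : 1 ≤ CL := one_le_Coll _ _
  have hCT1 : 1 ≤ CT := one_le_Coll _ _
  set Kf := max KG (max KL KT) with hKf
  have hCC : CL * CT ≤ Coll Kf Z s R u := by
    rw [← Coll_split Kf Z hsz hzR u]
    apply mul_le_mul _ _ (by linarith) (by linarith [one_le_Coll (Z := Z) (s := s) (R := z) Kf u])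
    · exact Coll_mono ((le_max_left _ _).trans (le_max_right _ _)) _ _ _ _
    · exact Coll_mono ((le_max_right _ _).trans (le_max_right _ _)) _ _ _ _
  have hsum : (∑ x ∈ Ioc A (A + X), ∏ i, nu Z s z R θ (x + u i)) =
      (∑ x ∈ Ioc A (A + X), Fx Z s z R θ u x) / (V * q) ^ m := by
    rw [sum_div]
    apply sum_congr rfl
    intro x _
    rw [nu_prod]
  rw [hsum]
  have hE2 : ((R : ℝ) ^ C * (R : ℝ) ^ C) ^ m * ((2 : ℝ) ^ 2 ^ (J - g)) ^ (CF * 2 ^ g) ≤
      δ * (X * (V * q) ^ m) := by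
    have a1 : ((2 : ℝ) ^ 2 ^ (J - g)) ^ (CF * 2 ^ g) = (R : ℝ) ^ CF := by
      rw [hR]
      push_cast
      rw [← pow_mul, ← pow_mul]
      congr 1
      have : 2 ^ J = 2 ^ (J - g) * 2 ^ g := by rw [← pow_add]; congr 1; omega
      rw [this]
      ring
    have a2 : 1 / (R : ℝ) ^ (4 * r * m) ≤ (V * q) ^ m := by
      have b1 : 1 / (R : ℝ) ^ (4 * r) ≤ V * q := by
        have b2 : 1 / (R : ℝ) ^ (4 * r) = 1 / (R : ℝ) ^ (2 * r) * (1 / (R : ℝ) ^ (2 * r)) := by
          rw [one_div_mul_one_div, ← pow_add]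
          congr 2
          ring
        rw [b2]
        exact mul_le_mul hV1 hq2 (by positivity) hV0.le
      rw [pow_mul, ← one_div_pow]
      exact pow_le_pow_left₀ (by positivity) b1 _
    have hR1 : (1 : ℝ) ≤ R := by exact_mod_cast (show 1 ≤ R by omega)
    have a3 : 1 ≤ δ * R := by
      have b1 : (1 / δ : ℝ) ≤ R := hn2.trans (by exact_mod_cast (show n2 ≤ R by omega))
      rw [div_le_iff₀ hδ0] at b1
      linarith
    rw [a1, ← pow_add, ← pow_mul, ← pow_add]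
    have a4 : (R : ℝ) ^ ((C + C) * m + CF + 4 * r * m) ≤ (R : ℝ) ^ (2 * C * M + CF + 4 * r * M) := by
      apply pow_le_pow_right₀ hR1
      have b1 := Nat.mul_le_mul_left (2 * C) hm
      have b2 := Nat.mul_le_mul_left (4 * r) hm
      have b3 : (C + C) * m = 2 * C * m := by ring
      omega
    calc (R : ℝ) ^ ((C + C) * m + CF)
        = (R : ℝ) ^ ((C + C) * m + CF + 4 * r * m) * (1 / (R : ℝ) ^ (4 * r * m)) := by
          rw [pow_add _ _ (4 * r * m)]
          field_simp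
      _ ≤ (R : ℝ) ^ (2 * C * M + CF + 4 * r * M) * (V * q) ^ m :=
          mul_le_mul a4 a2 (by positivity) (by positivity)
      _ ≤ (δ * R) * ((R : ℝ) ^ (2 * C * M + CF + 4 * r * M) * (V * q) ^ m) :=
          le_mul_of_one_le_left (by positivity) a3
      _ = δ * ((R : ℝ) ^ (2 * C * M + CF + 4 * r * M + 1) * (V * q) ^ m) := by
          rw [pow_succ]; ring
      _ ≤ δ * (X * (V * q) ^ m) := by
          apply mul_le_mul_of_nonneg_left _ hδ0.le
          exact mul_le_mul_of_nonneg_right hXR (by positivity)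
  have hfin := fin_ineq (S := ∑ x ∈ Ioc A (A + X), Fx Z s z R θ u x) (X := X) (Vq := V * q)
    (ρ := P / V ^ m) (τ := AA / q ^ m) (τ' := AB / q ^ m)
    (E2 := ((R : ℝ) ^ C * (R : ℝ) ^ C) ^ m * ((2 : ℝ) ^ 2 ^ (J - g)) ^ (CF * 2 ^ g))
    (δ := δ) (G := G) (CL := CL) (CT := CT) (κ := KT / z) (CC := Coll Kf Z s R u)
    (w := (1 / 2 : ℝ) ^ 2 ^ g) (V := V) (q := q) (P := P) (A := AA) (A' := AB) (m := m)
    hX0 hV0 hq0 rfl rfl rfl rfl hraw hE2
    (by
      rw [le_div_iff₀ hVm]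
      exact hl1)
    (by
      rw [div_le_iff₀ hVm]
      linarith)
    (by
      have a1 : AA / q ^ m - 1 = (AA - q ^ m) / q ^ m := by field_simp
      rw [a1, abs_div, abs_of_pos hqm]
      have a2 : 0 ≤ CT - 1 + KT / z := by
        have : (0 : ℝ) ≤ (KT : ℝ) / z := by positivity
        linarith
      calc |AA - q ^ m| / q ^ m ≤ EE z R ^ KT * (CT - 1 + KT / z) / q ^ m :=
            div_le_div_of_nonneg_right ht1 hqm.le
        _ = EE z R ^ KT / q ^ m * (CT - 1 + KT / z) := by ring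
        _ ≤ G * (CT - 1 + KT / z) := mul_le_mul_of_nonneg_right hG' a2)
    (by
      calc AB / q ^ m ≤ EE z R ^ KT * CT / q ^ m := div_le_div_of_nonneg_right ht2 hqm.le
        _ = EE z R ^ KT / q ^ m * CT := by ring
        _ ≤ G * CT := mul_le_mul_of_nonneg_right hG' (by linarith))
    (by positivity) hg2
    (by
      have a1 : G * KT / δ ≤ z := hn1.trans (by exact_mod_cast (show n1 ≤ z by omega))
      rw [div_le_iff₀ hδ0] at a1
      rw [← mul_div_assoc, div_le_iff₀ hz0]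
      linarith)
    hδ0 hδ1 hCL1 hCT1 hCC (by linarith)
  refine hfin.trans ?_
  have hK : G + 4 ≤ ((Kf : ℕ) : ℝ) := hKG.trans (by exact_mod_cast le_max_left _ _)
  have hCC1 : 0 ≤ Coll Kf Z s R u - 1 := by linarith [one_le_Coll (Z := Z) (s := s) (R := R) Kf u]
  have := mul_le_mul_of_nonneg_right hK hCC1
  linarith

end Pool.Agent.Y843.HS
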