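import Pool.Agent.Y843.HS.Win
import Pool.Agent.Y843.HS.CorD

/-!
# Szemerédi's theorem relative to sets sifted by the primes of `(s, Y]`
-/

set_option autoImplicit false

namespace Pool.Agent.Y843.HS

open Finset
open Filter (Tendsto atTop eventually_ge_atTop eventually_gt_atTop eventually_atTop)
open Pool.Agent.H602R3.DHJ (av av_const av_mono av_nonneg)
open Pool.Agent.Y727.PSP (rp sl LF LFk Lf S_RS)

theorem Th_one {Z : ℕ → Finset ℕ} {z R n : ℕ} {θ : Finset ℕ → ℝ} (h1 : θ ∅ = 1)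
    (hn : ∀ p ∈ Pr z R, n % p ∉ Z p) : Th Z z R θ n = 1 := by
  classical
  unfold Th
  have h2 : (Pr z R).powerset.filter (fun U => ∀ p ∈ U, n % p ∈ Z p) = {∅} := by
    ext U
    rw [mem_filter, mem_powerset, mem_singleton]
    constructor
    · rintro ⟨h3, h4⟩
      rw [eq_empty_iff_forall_notMem]
      intro p hp
      exact hn p (h3 hp) (h4 p hp)
    · rintro rfl
      exact ⟨empty_subset _, fun p hp => absurd hp (notMem_empty p)⟩
  rw [h2, sum_singleton, h1]

theorem VV_split (Z : ℕ → Finset ℕ) {a b c : ℕ} (hab : a ≤ b) (hbc : b ≤ c) :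
    VV Z a b * VV Z b c = VV Z a c := by
  unfold VV
  rw [← prod_union]
  · apply prod_congr _ (fun _ _ => rfl)
    ext p
    rw [mem_union, Pr_mem, Pr_mem, Pr_mem]
    constructor
    · rintro (⟨⟨h1, h2⟩, h3⟩ | ⟨⟨h1, h2⟩, h3⟩)
      · exact ⟨⟨h1, by omega⟩, h3⟩
      · exact ⟨⟨by omega, h2⟩, h3⟩
    · rintro ⟨⟨h1, h2⟩, h3⟩
      rcases le_or_gt p b with h | h
      · exact Or.inl ⟨⟨h1, h⟩, h3⟩
      · exact Or.inr ⟨⟨h, h2⟩, h3⟩
  · rw [disjoint_left]
    intro p hp hq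
    rw [Pr_mem] at hp hq
    omega

theorem EE_log : ∃ c : ℝ, 1 ≤ c ∧ ∀ a b : ℕ, 3 ≤ a → a ≤ b → EE a b ≤ c * Real.log b := by
  obtain ⟨C, hC0, hC⟩ := Pool.Agent.Helper923.HMertens.mertens_ratio
  refine ⟨Real.exp C, Real.one_le_exp_iff.2 hC0, ?_⟩
  intro a b ha hab
  have hla : 1 ≤ Real.log a := by
    have h3 : (3 : ℝ) ≤ a := by exact_mod_cast ha
    have : Real.exp 1 ≤ a := by
      have := Real.exp_one_lt_d9
      linarith
    rw [Real.le_log_iff_exp_le (by linarith)]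
    exact this
  have hab' : Real.log a ≤ Real.log b :=
    Real.log_le_log (by exact_mod_cast (show 0 < a by omega)) (by exact_mod_cast hab)
  have hlb : 0 < Real.log b := by linarith
  have h4 := (abs_le.1 (hC a b (by omega) hab)).2
  have h5 : C / Real.log a ≤ C := div_le_self hC0 hla
  have h6 : Real.log (Real.log b / Real.log a) ≤ Real.log (Real.log b) := by
    apply Real.log_le_log (by positivity)
    exact div_le_self hlb.le hla
  have h7 : ∑ p ∈ Pr a b, (1 : ℝ) / p ≤ C + Real.log (Real.log b) := by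
    unfold Pr
    linarith
  unfold EE
  refine (Real.exp_le_exp.2 h7).trans (le_of_eq ?_)
  rw [Real.exp_add, Real.exp_log hlb]

theorem Gd_mono {K K' : ℕ} (h : K ≤ K') (Z : ℕ → Finset ℕ) (a b : ℕ) (x : ℤ) :
    Gd K Z a b x ≤ Gd K' Z a b x := fac_mono h _

theorem LFk_mono {k N : ℕ} [NeZero N] {ν : ZMod N → ℝ} {η η' : ℝ} (h : η ≤ η')
    (hL : LFk k N ν η) : LFk k N ν η' := fun T hT => (hL T hT).trans h

/-- crossing -/
theorem exists_cross {P : ℕ → Prop} {a b : ℕ} (hab : a ≤ b) (ha : P a) (hb : ¬ P b) :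
    ∃ J, a ≤ J ∧ P J ∧ ¬ P (J + 1) := by
  classical
  have hex : ∃ n, ¬ P (a + n) := ⟨b - a, by rwa [Nat.add_sub_cancel' hab]⟩
  have h1 := Nat.find_spec hex
  have h2 : Nat.find hex ≠ 0 := by
    intro h
    rw [h] at h1
    exact h1 ha
  refine ⟨a + (Nat.find hex - 1), by omega, ?_, ?_⟩
  · by_contra h3
    have := Nat.find_min' hex h3
    omega
  · rw [show a + (Nat.find hex - 1) + 1 = a + Nat.find hex by omega]
    exact h1

theorem log_pow_le (n : ℕ) (c : ℝ) : ∃ X₀ : ℕ, ∀ X : ℕ, X₀ ≤ X → c * Real.log X ^ n ≤ X := by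
  rcases le_or_gt c 0 with hc | hc
  · refine ⟨1, fun X hX => ?_⟩
    have h1 : 0 ≤ Real.log X := Real.log_nonneg (by exact_mod_cast hX)
    have h2 : c * Real.log X ^ n ≤ 0 := mul_nonpos_of_nonpos_of_nonneg hc (by positivity)
    have h3 : (0 : ℝ) ≤ X := Nat.cast_nonneg X
    linarith
  · have h := Real.isLittleO_pow_log_id_atTop (n := n)
    have h2 := h.bound (show (0 : ℝ) < 1 / c by positivity)
    have h3 := tendsto_natCast_atTop_atTop (R := ℝ) |>.eventually h2
    rw [eventually_atTop] at h3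
    obtain ⟨X₀, hX₀⟩ := h3
    refine ⟨max X₀ 1, fun X hX => ?_⟩
    have h4 := hX₀ X ((le_max_left _ _).trans hX)
    have h1 : 0 ≤ Real.log X := Real.log_nonneg (by exact_mod_cast (le_max_right _ _).trans hX)
    rw [Real.norm_of_nonneg (by positivity), id, Real.norm_of_nonneg (Nat.cast_nonneg X)] at h4
    have h5 := mul_le_mul_of_nonneg_left h4 hc.le
    have h6 : c * (1 / c * (X : ℝ)) = X := by field_simp
    linarith

theorem log_ge (c : ℝ) : ∃ X₀ : ℕ, ∀ X : ℕ, X₀ ≤ X → c ≤ Real.log X := by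
  have h := (Real.tendsto_log_atTop.comp (tendsto_natCast_atTop_atTop (R := ℝ))).eventually
    (eventually_ge_atTop c)
  rw [eventually_atTop] at h
  exact h

/-- (PART A) -/
theorem partA (hTH : S_TH) (hCOR : S_COR) (hGAV : S_GAV) (hDEN : S_DEN) (hRS : S_RS) {k : ℕ}
    (hk : 2 ≤ k) (r L : ℕ) {δ : ℝ} (hδ : 0 < δ) :
    ∃ s₀ : ℕ, ∀ s : ℕ, s₀ ≤ s → ∃ B X₀ : ℕ, ∀ X Y A : ℕ, X₀ ≤ X → X ≤ Y ^ L → Y ≤ X ^ L →
      ∀ Z : ℕ → Finset ℕ, Sv r s Y Z → ∀ T : Finset ℕ, T ⊆ Ioc A (A + X) →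
      (∀ t ∈ T, ∀ p ∈ Pr s Y, t % p ∉ Z p) → δ * X * VV Z s Y ≤ T.card →
      ∃ a d : ℕ, 1 ≤ d ∧ (d : ℝ) ≤ Real.log X ^ B ∧ ∀ j < k, a + j * d ∈ T := by
  classical
  set M := 2 * (k * 2 ^ k) with hM
  obtain ⟨C, hC1, hC⟩ := hTH r
  obtain ⟨C1, hC1'⟩ := hCOR r M C
  set C2 := C1 + L + 1 with hC2
  obtain ⟨cD, hcD, R₀, hR₀⟩ := hDEN r (2 * C2 * L)
  have hC0 : (0 : ℝ) < C := by exact_mod_cast hC1
  set δ₁ := δ * cD / (8 * C) with hδ₁
  have hδ₁0 : 0 < δ₁ := by positivity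
  obtain ⟨c, ηR, hc0, hηR, hRSk⟩ := hRS k hk (δ₁ / 2) (by positivity)
  set η := min ηR (δ₁ / 8) with hη
  have hη0 : 0 < η := lt_min hηR (by positivity)
  have hη1 : η ≤ ηR := min_le_left _ _
  have hη2 : η ≤ δ₁ / 8 := min_le_right _ _
  set E := min (η ^ 2 / 3) (η ^ 3 / (3 * 2 ^ (k * 2 ^ k))) with hE
  have hE0 : 0 < E := lt_min (by positivity) (by positivity)
  have hE1 : 3 * E ≤ η ^ 2 := by
    have := min_le_left (η ^ 2 / 3) (η ^ 3 / (3 * 2 ^ (k * 2 ^ k)))
    rw [← hE] at this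
    linarith
  have hE2 : 2 ^ (k * 2 ^ k) * (3 * E) ≤ η ^ 3 := by
    have := min_le_right (η ^ 2 / 3) (η ^ 3 / (3 * 2 ^ (k * 2 ^ k)))
    rw [← hE, le_div_iff₀ (by positivity)] at this
    linarith
  obtain ⟨g, K, s₁, hs₁⟩ := hC1' (E / 2) (by positivity)
  set E' := E / (2 * (K * M ^ 2 + 1)) with hE'
  have hE'0 : 0 < E' := by positivity
  obtain ⟨s₂, B₀, X₁, hX₁⟩ := hGAV r (M ^ 2 * K * (1 + K) ^ M ^ 2) E' hE'0
  refine ⟨max (max s₁ s₂) (2 * r + 3), ?_⟩
  intro s hs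
  have hs1 : s₁ ≤ s := (le_max_left _ _).trans ((le_max_left _ _).trans hs)
  have hs2 : s₂ ≤ s := (le_max_right _ _).trans ((le_max_left _ _).trans hs)
  have hs3 : 2 * r + 3 ≤ s := (le_max_right _ _).trans hs
  obtain ⟨J₁, hJ₁⟩ := hs₁ s hs1
  obtain ⟨cM, hcM1, hcM⟩ := EE_log
  set B' := B₀ + 2 * r * k + 1 with hB'
  set J₂ := J₁ + C + g + s + R₀ + 1 with hJ₂
  obtain ⟨X₂, hX₂⟩ := log_ge (max 4 (max (k + 1) (cM ^ (2 * r * k) / c + 1)))
  obtain ⟨X₃, hX₃⟩ := log_pow_le (B' + 2 * r) (8 * cM ^ (2 * r) / (δ * cD))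
  refine ⟨B' + 1, max (max X₁ X₂) (max X₃ ((2 ^ 2 ^ J₂) ^ C2)), ?_⟩
  intro X Y A hX hXY hYX Z hZ T hT hTZ hTc
  have hXX₁ : X₁ ≤ X := (le_max_left _ _).trans ((le_max_left _ _).trans hX)
  have hXX₂ := hX₂ X ((le_max_right _ _).trans ((le_max_left _ _).trans hX))
  have hXX₃ := hX₃ X ((le_max_left _ _).trans ((le_max_right _ _).trans hX))
  have hXX₄ : (2 ^ 2 ^ J₂) ^ C2 ≤ X := (le_max_right _ _).trans ((le_max_right _ _).trans hX)
  have hlog4 : 4 ≤ Real.log X := (le_max_left _ _).trans hXX₂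
  have hlogk : (k : ℝ) + 1 ≤ Real.log X := (le_max_left _ _).trans ((le_max_right _ _).trans hXX₂)
  have hlogc : cM ^ (2 * r * k) / c + 1 ≤ Real.log X :=
    (le_max_right _ _).trans ((le_max_right _ _).trans hXX₂)
  -- the level
  obtain ⟨J, hJ2, hJX, hJX'⟩ := exists_cross (P := fun J => (2 ^ 2 ^ J) ^ C2 ≤ X)
    (a := J₂) (b := J₂ + X) (Nat.le_add_right _ _) hXX₄ (by
      rw [not_le]
      calc X < 2 ^ X := Nat.lt_two_pow_self
        _ ≤ 2 ^ 2 ^ (J₂ + X) := Nat.pow_le_pow_right (by norm_num)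
            ((Nat.le_add_left _ _).trans Nat.lt_two_pow_self.le)
        _ = (2 ^ 2 ^ (J₂ + X)) ^ 1 := (pow_one _).symm
        _ ≤ (2 ^ 2 ^ (J₂ + X)) ^ C2 := Nat.pow_le_pow_right (by positivity) (by omega))
  rw [not_le] at hJX'
  set R := 2 ^ 2 ^ J with hR
  set z := 2 ^ 2 ^ (J - g) with hz
  have hR1 : 1 ≤ R := Nat.one_le_two_pow
  have hXR : X < R ^ (2 * C2) := by
    have : 2 ^ 2 ^ (J + 1) = R ^ 2 := by rw [hR, ← pow_mul, pow_succ]
    rw [this, ← pow_mul] at hJX'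
    exact hJX'
  have hX1 : 1 ≤ X := (Nat.one_le_pow _ _ hR1).trans hJX
  have hX0 : (0 : ℝ) < X := by exact_mod_cast hX1
  have hRX : R ≤ X := by
    refine le_trans ?_ hJX
    calc R = R ^ 1 := (pow_one R).symm
      _ ≤ R ^ C2 := Nat.pow_le_pow_right hR1 (by omega)
  have hRY : R ≤ Y := by
    by_contra hcon
    rw [not_le] at hcon
    have hL : L ≠ 0 := by
      intro h0
      rw [h0, pow_zero] at hXY
      have : X = 1 := by omega
      rw [this] at hlog4
      simp at hlog4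
      linarith
    have h1 : Y ^ L < R ^ L := Nat.pow_lt_pow_left hcon hL
    have h2 : R ^ L ≤ R ^ C2 := Nat.pow_le_pow_right hR1 (by omega)
    omega
  have hYR : Y ≤ R ^ (2 * C2 * L) := by
    rw [pow_mul]
    exact hYX.trans (Nat.pow_le_pow_left hXR.le L)
  have hsz : s ≤ z := by
    rw [hz]
    exact (show s ≤ J - g by omega).trans (tower_ge _)
  have hzR : z ≤ R := by
    rw [hz, hR]
    exact Nat.pow_le_pow_right (by norm_num) (Nat.pow_le_pow_right (by norm_num) (Nat.sub_le _ _))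
  have hR₀R : R₀ ≤ R := (show R₀ ≤ J by omega).trans (tower_ge J)
  obtain ⟨θ, hθ⟩ := hC (J - g) J (by omega) (Nat.sub_le _ _) Z
    (Sv_mono hZ hsz hRY)
  rw [← hz, ← hR] at hθ
  have hZR : Sv r s R Z := Sv_mono hZ le_rfl hRY
  set V := VV Z s z with hV
  set q := qq Z z R θ with hq
  have hVR : 1 / EE s R ^ (2 * r) ≤ VV Z s R := VV_ge (by omega) hZR
  have hEE : EE s R ≤ cM * Real.log X := by
    refine (hcM s R (by omega) (hsz.trans hzR)).trans ?_
    apply mul_le_mul_of_nonneg_left _ (by linarith)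
    exact Real.log_le_log (by exact_mod_cast hR1) (by exact_mod_cast hRX)
  have hEE1 := one_le_EE s R
  have hV0 : 0 < V := by
    have := VV_ge (a := s) (b := z) (r := r) (Z := Z) (by omega) (Sv_mono hZR le_rfl hzR)
    have h1 := one_le_EE s z
    exact lt_of_lt_of_le (by positivity) this
  have hVzR0 : 0 < VV Z z R := by
    have := VV_ge (a := z) (b := R) (r := r) (Z := Z) (by omega) (Sv_mono hZR hsz le_rfl)
    have h1 := one_le_EE z R
    exact lt_of_lt_of_le (by positivity) this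
  have hq0 : 0 < q := lt_of_lt_of_le hVzR0 hθ.lo
  have hsplit : V * VV Z z R = VV Z s R := VV_split Z hsz hzR
  have hVR0 : 0 < VV Z s R := by rw [← hsplit]; positivity
  set w := 1 / (V * q) with hw
  have hw0 : 0 < w := by positivity
  have hVq : V * q ≤ C * VV Z s R := by
    rw [← hsplit]
    calc V * q ≤ V * (C * VV Z z R) := mul_le_mul_of_nonneg_left hθ.hi hV0.le
      _ = C * (V * VV Z z R) := by ring
  have hwup : w ≤ (cM * Real.log X) ^ (2 * r) := by
    have h1 : VV Z s R ≤ V * q := by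
      rw [← hsplit]
      exact mul_le_mul_of_nonneg_left hθ.lo hV0.le
    calc w ≤ 1 / VV Z s R := one_div_le_one_div_of_le hVR0 h1
      _ ≤ EE s R ^ (2 * r) := by
          rw [div_le_iff₀ hVR0]
          rw [div_le_iff₀ (by positivity)] at hVR
          linarith
      _ ≤ _ := pow_le_pow_left₀ (by positivity) hEE _
  -- the size of `T`
  have hden : cD ≤ VV Z R Y := hR₀ R Y hR₀R hYR Z (Sv_mono hZ (hsz.trans hzR) le_rfl)
  have hTc' : δ * cD * X * VV Z s R ≤ T.card := by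
    refine le_trans ?_ hTc
    rw [← VV_split Z (hsz.trans hzR) hRY]
    have := mul_le_mul_of_nonneg_left hden (show 0 ≤ δ * X * VV Z s R by positivity)
    linarith
  have hwT : 8 * δ₁ * X ≤ w * T.card := by
    calc 8 * δ₁ * X = (δ * cD * X * VV Z s R) / (C * VV Z s R) := by
          rw [hδ₁]
          field_simp
      _ ≤ (δ * cD * X * VV Z s R) / (V * q) :=
          div_le_div_of_nonneg_left (by positivity) (by positivity) hVq
      _ = w * (δ * cD * X * VV Z s R) := by rw [hw]; ring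
      _ ≤ w * T.card := mul_le_mul_of_nonneg_left hTc' hw0.le
  -- the prime `N`
  set y := Real.log X ^ B' with hy
  have hy1 : Real.log X ≤ y := by
    rw [hy]
    calc Real.log X = Real.log X ^ 1 := (pow_one _).symm
      _ ≤ Real.log X ^ B' := pow_le_pow_right₀ (by linarith) (by omega)
  obtain ⟨N, hNp, hN1, hN2⟩ := Nat.exists_prime_lt_and_le_two_mul ⌈y⌉₊ (by
    have : 0 < ⌈y⌉₊ := Nat.ceil_pos.2 (by linarith)
    omega)
  have hyN : y < N := (Nat.le_ceil y).trans_lt (by exact_mod_cast hN1)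
  have hNy : (N : ℝ) ≤ 4 * y := by
    have h1 : (N : ℝ) ≤ 2 * (⌈y⌉₊ : ℝ) := by exact_mod_cast hN2
    have h2 := (Nat.ceil_lt_add_one (show 0 ≤ y by linarith)).le
    linarith
  have : Fact N.Prime := ⟨hNp⟩
  have : NeZero N := ⟨hNp.ne_zero⟩
  have hkN : k < N := by
    have : (k : ℝ) < N := by linarith
    exact_mod_cast this
  have hN0 : (0 : ℝ) < N := by linarith
  have hTN : 2 * N ≤ T.card := by
    have h1 : (2 * N : ℝ) ≤ T.card := by
      refine le_trans ?_ hTc'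
      have h2 : 1 / (cM * Real.log X) ^ (2 * r) ≤ VV Z s R :=
        (one_div_le_one_div_of_le (by positivity) (pow_le_pow_left₀ (by positivity) hEE _)).trans hVR
      have h3 : 2 * (N : ℝ) ≤ δ * cD * X * (1 / (cM * Real.log X) ^ (2 * r)) := by
        rw [mul_one_div, le_div_iff₀ (by positivity)]
        calc 2 * (N : ℝ) * (cM * Real.log X) ^ (2 * r)
            ≤ 2 * (4 * y) * (cM * Real.log X) ^ (2 * r) := by gcongr
          _ = δ * cD * (8 * cM ^ (2 * r) / (δ * cD) * Real.log X ^ (B' + 2 * r)) := by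
              rw [hy, mul_pow, pow_add]
              field_simp
              ring
          _ ≤ δ * cD * X := mul_le_mul_of_nonneg_left hXX₃ (by positivity)
      exact h3.trans (mul_le_mul_of_nonneg_left h2 (by positivity))
    exact_mod_cast h1
  -- the weight
  set ν := nu Z s z R θ with hν
  have hν0 : ∀ n, 0 ≤ ν n := by
    intro n
    rw [hν]
    unfold nu
    apply div_nonneg _ (by positivity)
    apply mul_nonneg _ (hθ.nonneg n)
    split_ifs
    · exact zero_le_one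
    · exact le_rfl
  have hνT : ∀ t ∈ T, ν t = w := by
    intro t ht
    rw [hν]
    unfold nu
    have h1 : ∀ p ∈ Pr s z, t % p ∉ Z p := fun p hp => hTZ t ht p (by
      rw [Pr_mem] at hp ⊢
      exact ⟨⟨hp.1.1, by omega⟩, hp.2⟩)
    have h2 : ∀ p ∈ Pr z R, t % p ∉ Z p := fun p hp => hTZ t ht p (by
      rw [Pr_mem] at hp ⊢
      exact ⟨⟨by omega, by omega⟩, hp.2⟩)
    rw [if_pos h1, Th_one hθ.one h2, one_mul]
  have hJX1 : R ^ C1 ≤ X := (Nat.pow_le_pow_right hR1 (by omega)).trans hJX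
  have hcorr := hJ₁ J A X (by omega) hJX1 Z hZR θ hθ
  have hgav := hX₁ s R X N hs2 hXX₁ hRX (by
    refine le_trans ?_ hyN.le
    rw [hy]
    exact pow_le_pow_right₀ (by linarith) (by omega)) Z hZR
  have hcor := cor_of (Z := Z) (s := s) (R := R) (ν := ν) (M := M) (K := K) (A := A) (X := X) (N := N)
    (ε := E / 2) (E := E') hX1 hcorr (by
      intro m hm
      refine le_trans ?_ hgav
      apply div_le_div_of_nonneg_right _ hN0.le
      apply sum_le_sum
      intro h _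
      apply sub_le_sub_right
      apply Gd_mono
      have h1 : m ^ 2 ≤ M ^ 2 := Nat.pow_le_pow_left hm 2
      exact Nat.mul_le_mul (Nat.mul_le_mul_right K h1) (Nat.pow_le_pow_right (by omega) h1)) hE'0.le
  have hEE' : E / 2 + K * (M ^ 2 * E') ≤ E := by
    have h1 : (K : ℝ) * (M ^ 2 * E') ≤ E / 2 := by
      rw [hE']
      have h2 : (K : ℝ) * (M ^ 2 * (E / (2 * (K * M ^ 2 + 1)))) =
          (E / 2) * ((K * M ^ 2) / (K * M ^ 2 + 1)) := by
        field_simp
      rw [h2]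
      apply mul_le_of_le_one_right (by positivity)
      rw [div_le_one (by positivity)]
      linarith
    linarith
  have hcor' : Cor ν M E A X N := by
    intro Y' _ _ I _ hI f hf
    exact (hcor Y' I hI f hf).trans hEE'
  obtain ⟨hl1, hl2⟩ := lfm hk hkN.le hcor' hX1 (le_of_eq hM.symm) hη0 hE1 hE2
  have hF : ∀ x (a : ZMod N), 0 ≤ fX T w N x a ∧ fX T w N x a ≤ nuX ν N x a := by
    intro x a
    unfold fX nuX
    split_ifs with h
    · exact ⟨hw0.le, (hνT _ h.1).ge⟩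
    · exact ⟨le_rfl, hν0 _⟩
  have hsum := sum_av_fX (N := N) hT hw0.le (by omega) hTN
  obtain ⟨x, hx, hxL, hxav⟩ := exists_window (k := k) (ν := ν) (A := A) (X := X) (N := N) (η := η)
    (δ := δ₁) (F := fX T w N) hX1 hF hl1 hl2 (by
      refine le_trans ?_ hsum
      rw [le_div_iff₀ (by norm_num)]
      linarith) (by linarith) hη0.le
  have hav := hRSk N hNp hkN (nuX ν N x) (fX T w N x) (hF x) (LFk_mono hη1 hxL) hxav
  have hfw : ∀ a, 0 ≤ fX T w N x a ∧ fX T w N x a ≤ w := by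
    intro a
    refine ⟨(hF x a).1, ?_⟩
    unfold fX
    split_ifs
    · exact le_rfl
    · exact hw0.le
  obtain ⟨a, d, hd, had⟩ := exists_ne hfw hav (by
    rw [div_lt_iff₀ hN0]
    have h1 : w ^ k ≤ (cM * Real.log X) ^ (2 * r * k) := by
      rw [pow_mul]
      exact pow_le_pow_left₀ hw0.le hwup k
    have h2 : Real.log X ^ (2 * r * k) * Real.log X ≤ y := by
      rw [hy, ← pow_succ]
      exact pow_le_pow_right₀ (by linarith) (by omega)
    have h3 : cM ^ (2 * r * k) < c * Real.log X := by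
      have h4 : cM ^ (2 * r * k) / c < Real.log X := by linarith
      rw [div_lt_iff₀ hc0] at h4
      linarith
    calc w ^ k ≤ (cM * Real.log X) ^ (2 * r * k) := h1
      _ = cM ^ (2 * r * k) * Real.log X ^ (2 * r * k) := mul_pow _ _ _
      _ < (c * Real.log X) * Real.log X ^ (2 * r * k) :=
          mul_lt_mul_of_pos_right h3 (by positivity)
      _ = c * (Real.log X ^ (2 * r * k) * Real.log X) := by ring
      _ ≤ c * y := mul_le_mul_of_nonneg_left h2 hc0.le
      _ ≤ c * N := mul_le_mul_of_nonneg_left hyN.le hc0.le)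
  have hmem : ∀ j < k, x + rp (a + (j : ZMod N) * d) ∈ T ∧ 2 * rp (a + (j : ZMod N) * d) < N := by
    intro j hj
    have h1 := had j hj
    unfold fX at h1
    by_contra hcon
    rw [if_neg hcon] at h1
    exact h1 rfl
  obtain ⟨b, D, hD1, hDN, hb⟩ := ap_of_rp hk hd (fun j hj => (hmem j hj).2)
  refine ⟨x + b, D, hD1, ?_, ?_⟩
  · calc (D : ℝ) ≤ N := by exact_mod_cast hDN.le
      _ ≤ 4 * y := hNy
      _ ≤ Real.log X * y := mul_le_mul_of_nonneg_right hlog4 (by linarith)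
      _ = Real.log X ^ (B' + 1) := by rw [hy, pow_succ]; ring
  · intro j hj
    obtain ⟨i, hi, hij⟩ := hb j hj
    rw [add_assoc, hij]
    exact (hmem i hi).1

end Pool.Agent.Y843.HS
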