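import Pool.Agent.Y843.HS.Stm
import Pool.Agent.Y79.PSP.MK

/-!
# Collisions of random shifts
-/

set_option autoImplicit false

namespace Pool.Agent.Y843.HS

open Finset
open Pool.Agent.H602R3.DHJ (av av_prod av_const av_mono av_nonneg av_add av_sub av_mul av_sum)
open Pool.Agent.Y727.PSP
open Pool.Agent.Y79.PSP.MK (card_fiber rp_mem rp_inj av_abs_le frm frm_sep frm_ne)

variable {Z : ℕ → Finset ℕ} {s R : ℕ}

open Classical in
/-- the primes of collision for the difference `h` -/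
noncomputable def Dp (Z : ℕ → Finset ℕ) (a b : ℕ) (h : ℤ) : Finset ℕ :=
  (Pr a b).filter (fun p => ∃ c ∈ Z p, ∃ c' ∈ Z p, (p : ℤ) ∣ h - ((c : ℤ) - c'))

theorem Gd_eq (K : ℕ) (h : ℤ) : Gd K Z s R h = ∏ p ∈ Dp Z s R h, (1 + (K : ℝ) / p) := rfl

theorem one_le_fac (K p : ℕ) : (1 : ℝ) ≤ 1 + (K : ℝ) / p := by
  have : (0 : ℝ) ≤ (K : ℝ) / p := by positivity
  linarith

theorem one_le_prod_fac (K : ℕ) (T : Finset ℕ) : (1 : ℝ) ≤ ∏ p ∈ T, (1 + (K : ℝ) / p) := by
  calc (1 : ℝ) = ∏ _p ∈ T, (1 : ℝ) := by simp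
    _ ≤ _ := prod_le_prod (fun _ _ => zero_le_one) (fun p _ => one_le_fac K p)

theorem one_le_Gd (K : ℕ) (h : ℤ) : 1 ≤ Gd K Z s R h := one_le_prod_fac K _

theorem one_le_Coll (K : ℕ) {m : ℕ} (u : Fin m → ℕ) : 1 ≤ Coll K Z s R u := one_le_prod_fac K _

theorem prod_fac_mono (K : ℕ) {T T' : Finset ℕ} (h : T ⊆ T') :
    ∏ p ∈ T, (1 + (K : ℝ) / p) ≤ ∏ p ∈ T', (1 + (K : ℝ) / p) := by
  rw [← prod_sdiff h]
  exact le_mul_of_one_le_left (zero_le_one.trans (one_le_prod_fac K _)) (one_le_prod_fac K _)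

theorem prod_biUnion_le (K : ℕ) {ι : Type} [DecidableEq ι] (L : Finset ι) (T : ι → Finset ℕ) :
    ∏ p ∈ L.biUnion T, (1 + (K : ℝ) / p) ≤ ∏ l ∈ L, ∏ p ∈ T l, (1 + (K : ℝ) / p) := by
  induction L using Finset.induction_on with
  | empty => simp
  | insert l L hl ih =>
    rw [biUnion_insert, prod_insert hl]
    have h1 : ∏ p ∈ T l ∪ L.biUnion T, (1 + (K : ℝ) / p) ≤
        (∏ p ∈ T l, (1 + (K : ℝ) / p)) * ∏ p ∈ L.biUnion T, (1 + (K : ℝ) / p) := by
      rw [← prod_union_inter]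
      exact le_mul_of_one_le_right (zero_le_one.trans (one_le_prod_fac K _)) (one_le_prod_fac K _)
    refine h1.trans ?_
    exact mul_le_mul_of_nonneg_left ih (zero_le_one.trans (one_le_prod_fac K _))

theorem Coll_le (K : ℕ) {m : ℕ} (u : Fin m → ℕ) :
    Coll K Z s R u ≤ ∏ l ∈ (univ : Finset (Fin m)).offDiag, Gd K Z s R ((u l.1 : ℤ) - u l.2) := by
  classical
  refine le_trans ?_ (prod_biUnion_le K (univ : Finset (Fin m)).offDiag
    (fun l => Dp Z s R ((u l.1 : ℤ) - u l.2)))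
  unfold Coll
  apply prod_fac_mono
  intro p hp
  rw [mem_filter] at hp
  obtain ⟨hp1, i, j, hij, c, hc1, hc2⟩ := hp
  rw [mem_biUnion]
  refine ⟨(i, j), by simpa using hij, ?_⟩
  unfold Dp
  rw [mem_filter]
  refine ⟨hp1, _, hc1, _, hc2, ?_⟩
  push_cast
  have e1 : (p : ℤ) ∣ ((c : ℤ) + u i) - ((c : ℤ) + u i) % p := Int.dvd_self_sub_emod
  have e2 : (p : ℤ) ∣ ((c : ℤ) + u j) - ((c : ℤ) + u j) % p := Int.dvd_self_sub_emod
  have e3 := dvd_sub e1 e2
  have e4 : (u i : ℤ) - u j - (((c : ℤ) + u i) % p - ((c : ℤ) + u j) % p) =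
    ((c : ℤ) + u i - ((c : ℤ) + u i) % p) - ((c : ℤ) + u j - ((c : ℤ) + u j) % p) := by ring
  rw [e4]
  exact e3

theorem pow_fac_le (K L p : ℕ) (hp : 1 ≤ p) :
    (1 + (K : ℝ) / p) ^ L ≤ 1 + ((L * K * (1 + K) ^ L : ℕ) : ℝ) / p := by
  have hp0 : (0 : ℝ) < p := by exact_mod_cast hp
  have hp1 : (1 : ℝ) ≤ p := by exact_mod_cast hp
  obtain ⟨x, hx⟩ : ∃ x : ℝ, x = (K : ℝ) / p := ⟨_, rfl⟩
  have hx0 : 0 ≤ x := by rw [hx]; positivity
  have hxK : x ≤ K := by
    rw [hx]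
    exact div_le_self (by positivity) hp1
  have key : ∀ n : ℕ, (1 + x) ^ n ≤ 1 + n * x * (1 + K) ^ n := by
    intro n
    induction n with
    | zero => simp
    | succ n ih =>
      have h1 : (1 : ℝ) ≤ (1 + K) ^ n := one_le_pow₀ (by linarith [Nat.cast_nonneg (α := ℝ) K])
      have hK : (0 : ℝ) ≤ K := Nat.cast_nonneg K
      calc (1 + x) ^ (n + 1) = (1 + x) ^ n * (1 + x) := pow_succ _ _
        _ ≤ (1 + n * x * (1 + K) ^ n) * (1 + x) := mul_le_mul_of_nonneg_right ih (by linarith)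
        _ = 1 + x + n * x * (1 + K) ^ n * (1 + x) := by ring
        _ ≤ 1 + x * (1 + K) ^ (n + 1) + n * x * (1 + K) ^ n * (1 + K) := by
            have h2 : n * x * (1 + (K : ℝ)) ^ n * (1 + x) ≤ n * x * (1 + K) ^ n * (1 + K) :=
              mul_le_mul_of_nonneg_left (by linarith) (by positivity)
            have h3 : x ≤ x * (1 + (K : ℝ)) ^ (n + 1) :=
              le_mul_of_one_le_right hx0 (one_le_pow₀ (by linarith))
            linarith
        _ = 1 + ((n + 1 : ℕ) : ℝ) * x * (1 + K) ^ (n + 1) := by push_cast; ring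
  rw [← hx]
  refine (key L).trans (le_of_eq ?_)
  rw [hx]
  push_cast
  ring

theorem pow_Gd_le (K L : ℕ) (h : ℤ) :
    Gd K Z s R h ^ L ≤ Gd (L * K * (1 + K) ^ L) Z s R h := by
  rw [Gd_eq, Gd_eq, ← prod_pow]
  apply prod_le_prod
  · intro p _
    have := one_le_fac K p
    positivity
  · intro p hp
    apply pow_fac_le
    unfold Dp Pr at hp
    rw [mem_filter, mem_filter] at hp
    exact hp.1.2.one_lt.le

theorem prod_sub_one_le {ι : Type} (L : Finset ι) (G : ι → ℝ) (hG : ∀ l ∈ L, 1 ≤ G l) :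
    ∏ l ∈ L, G l - 1 ≤ ∑ l ∈ L, (G l ^ L.card - 1) := by
  classical
  rcases L.eq_empty_or_nonempty with h | h
  · simp [h]
  · obtain ⟨l0, hl0, hmax⟩ := exists_max_image L G h
    have h1 : ∏ l ∈ L, G l ≤ G l0 ^ L.card := by
      rw [← prod_const]
      exact prod_le_prod (fun l hl => by linarith [hG l hl]) (fun l hl => hmax l hl)
    have h2 : G l0 ^ L.card - 1 ≤ ∑ l ∈ L, (G l ^ L.card - 1) :=
      single_le_sum (f := fun l => G l ^ L.card - 1)
        (fun l hl => by linarith [one_le_pow₀ (n := L.card) (hG l hl)]) hl0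
    linarith

theorem Coll_sub_le (K : ℕ) {m : ℕ} (u : Fin m → ℕ) :
    Coll K Z s R u - 1 ≤ ∑ l ∈ (univ : Finset (Fin m)).offDiag,
      (Gd (m ^ 2 * K * (1 + K) ^ m ^ 2) Z s R ((u l.1 : ℤ) - u l.2) - 1) := by
  classical
  have h0 := Coll_le (Z := Z) (s := s) (R := R) K u
  have h1 := prod_sub_one_le (univ : Finset (Fin m)).offDiag
    (fun l => Gd K Z s R ((u l.1 : ℤ) - u l.2)) (fun l _ => one_le_Gd K _)
  refine (sub_le_sub_right h0 1).trans (h1.trans ?_)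
  apply sum_le_sum
  intro l _
  apply sub_le_sub_right
  have hc : (univ : Finset (Fin m)).offDiag.card ≤ m ^ 2 := by
    rw [offDiag_card, card_univ, Fintype.card_fin, pow_two]
    exact Nat.sub_le _ _
  exact (pow_le_pow_right₀ (one_le_Gd K _) hc).trans (pow_Gd_le K (m ^ 2) _)

section av

variable {Y : Type} [AddCommGroup Y] [Fintype Y] {N : ℕ}

theorem rp_cast [NeZero N] (a : ZMod N) : ((rp a : ℕ) : ZMod N) = a := by
  unfold rp
  split_ifs with h
  · rw [h]; simp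
  · simp

theorem av_diff_le [NeZero N] [Fact N.Prime] (f g : Y →+ ZMod N) (hfg : ∃ v, f v ≠ g v)
    (F : ℤ → ℝ) (hF : ∀ h, 0 ≤ F h) :
    av (fun y : Y => F ((rp (f y) : ℤ) - rp (g y))) ≤ (∑ h ∈ Ioo (-(N : ℤ)) N, F h) / N := by
  classical
  have hN : (0 : ℝ) < N := by exact_mod_cast Nat.pos_of_ne_zero (NeZero.ne N)
  have hY : (0 : ℝ) < Fintype.card Y := by exact_mod_cast Fintype.card_pos
  unfold av
  rw [div_le_div_iff₀ hY hN]
  have hmem : ∀ y : Y, ((rp (f y) : ℤ) - rp (g y)) ∈ Ioo (-(N : ℤ)) N := by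
    intro y
    obtain ⟨h1, h2⟩ := rp_mem (f y)
    obtain ⟨h3, h4⟩ := rp_mem (g y)
    rw [mem_Ioo]
    constructor <;> omega
  have h1 : ∑ y : Y, F ((rp (f y) : ℤ) - rp (g y)) =
      ∑ h ∈ Ioo (-(N : ℤ)) N, ((univ.filter (fun y : Y => (rp (f y) : ℤ) - rp (g y) = h)).card : ℝ) * F h := by
    rw [← sum_fiberwise_of_maps_to (t := Ioo (-(N : ℤ)) N) (g := fun y : Y => (rp (f y) : ℤ) - rp (g y))
      (fun y _ => hmem y)]
    apply sum_congr rfl
    intro h _
    rw [← nsmul_eq_mul, ← sum_const]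
    apply sum_congr rfl
    intro y hy
    rw [mem_filter] at hy
    rw [hy.2]
  rw [h1, sum_mul, sum_mul]
  apply sum_le_sum
  intro h _
  obtain ⟨v, hv⟩ := hfg
  have h2 := card_fiber (f - g) (v := v) (by simpa [sub_eq_zero] using hv) ((h : ℤ) : ZMod N)
  have h3 : (univ.filter (fun y : Y => (rp (f y) : ℤ) - rp (g y) = h)) ⊆
      univ.filter (fun y => (f - g) y = ((h : ℤ) : ZMod N)) := by
    intro y hy
    rw [mem_filter] at hy ⊢
    refine ⟨mem_univ _, ?_⟩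
    rw [AddMonoidHom.sub_apply, ← hy.2]
    push_cast
    rw [rp_cast, rp_cast]
  have h4 : ((univ.filter (fun y : Y => (rp (f y) : ℤ) - rp (g y) = h)).card : ℝ) * N ≤
      Fintype.card Y := by
    have h5 := (Nat.mul_le_mul_right N (card_le_card h3)).trans h2
    exact_mod_cast h5
  calc ((univ.filter (fun y : Y => (rp (f y) : ℤ) - rp (g y) = h)).card : ℝ) * F h * N
      = (((univ.filter (fun y : Y => (rp (f y) : ℤ) - rp (g y) = h)).card : ℝ) * N) * F h := by ring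
    _ ≤ Fintype.card Y * F h := mul_le_mul_of_nonneg_right h4 (hF h)
    _ = F h * Fintype.card Y := mul_comm _ _

/-- the average of the collision factor -/
theorem av_Coll [NeZero N] [Fact N.Prime] (K : ℕ) {m : ℕ} (f : Fin m → Y →+ ZMod N)
    (hf : ∀ i j, i ≠ j → ∃ v, f i v ≠ f j v) {E : ℝ}
    (hE : (∑ h ∈ Ioo (-(N : ℤ)) N, (Gd (m ^ 2 * K * (1 + K) ^ m ^ 2) Z s R h - 1)) / N ≤ E) :
    av (fun y : Y => Coll K Z s R (fun i => rp (f i y)) - 1) ≤ m ^ 2 * E := by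
  classical
  have hE0 : 0 ≤ E := by
    refine le_trans ?_ hE
    apply div_nonneg _ (Nat.cast_nonneg N)
    exact sum_nonneg fun h _ => by linarith [one_le_Gd (Z := Z) (s := s) (R := R) (m ^ 2 * K * (1 + K) ^ m ^ 2) h]
  calc av (fun y : Y => Coll K Z s R (fun i => rp (f i y)) - 1)
      ≤ av (fun y : Y => ∑ l ∈ (univ : Finset (Fin m)).offDiag,
        (Gd (m ^ 2 * K * (1 + K) ^ m ^ 2) Z s R ((rp (f l.1 y) : ℤ) - rp (f l.2 y)) - 1)) := by
        apply av_mono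
        intro y
        exact Coll_sub_le K (fun i => rp (f i y))
    _ = ∑ l ∈ (univ : Finset (Fin m)).offDiag, av (fun y : Y =>
        (Gd (m ^ 2 * K * (1 + K) ^ m ^ 2) Z s R ((rp (f l.1 y) : ℤ) - rp (f l.2 y)) - 1)) := by
        unfold av
        rw [sum_comm, sum_div]
    _ ≤ ∑ l ∈ (univ : Finset (Fin m)).offDiag, E := by
        apply sum_le_sum
        intro l hl
        refine (av_diff_le (f l.1) (f l.2) (hf l.1 l.2 (by simpa using hl))
          (fun h => Gd (m ^ 2 * K * (1 + K) ^ m ^ 2) Z s R h - 1)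
          (fun h => by linarith [one_le_Gd (Z := Z) (s := s) (R := R) (m ^ 2 * K * (1 + K) ^ m ^ 2) h])).trans hE
    _ ≤ m ^ 2 * E := by
        rw [sum_const, nsmul_eq_mul]
        apply mul_le_mul_of_nonneg_right _ hE0
        have : (univ : Finset (Fin m)).offDiag.card ≤ m ^ 2 := by
          rw [offDiag_card, card_univ, Fintype.card_fin, pow_two]
          exact Nat.sub_le _ _
        exact_mod_cast this

end av

end Pool.Agent.Y843.HS
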