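import Pool.Agent.Y843.HS.CorB
import Pool.Agent.Y843.HS.Gd
import Pool.Agent.Helper923.HMertens

/-!
# The correlations of the weight
-/

set_option autoImplicit false

namespace Pool.Agent.Y843.HS

open Finset
open Filter (Tendsto atTop eventually_ge_atTop)
open scoped Topology

theorem fac_mono {K K' : ℕ} (h : K ≤ K') (T : Finset ℕ) :
    ∏ p ∈ T, (1 + (K : ℝ) / p) ≤ ∏ p ∈ T, (1 + (K' : ℝ) / p) := by
  apply prod_le_prod
  · intro p _
    linarith [one_le_fac K p]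
  · intro p _
    have : (K : ℝ) ≤ K' := by exact_mod_cast h
    gcongr

theorem Coll_mono {K K' : ℕ} (h : K ≤ K') (Z : ℕ → Finset ℕ) (a b : ℕ) {m : ℕ} (u : Fin m → ℕ) :
    Coll K Z a b u ≤ Coll K' Z a b u := fac_mono h _

theorem Coll_split (K : ℕ) (Z : ℕ → Finset ℕ) {a b c : ℕ} (hab : a ≤ b) (hbc : b ≤ c) {m : ℕ}
    (u : Fin m → ℕ) : Coll K Z a b u * Coll K Z b c u = Coll K Z a c u := by
  classical
  unfold Coll
  rw [← prod_union]
  · apply prod_congr _ (fun _ _ => rfl)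
    ext p
    rw [mem_union, mem_filter, mem_filter, mem_filter, Pr_mem, Pr_mem, Pr_mem]
    constructor
    · rintro (⟨⟨⟨h1, h2⟩, h3⟩, h4⟩ | ⟨⟨⟨h1, h2⟩, h3⟩, h4⟩)
      · exact ⟨⟨⟨h1, by omega⟩, h3⟩, h4⟩
      · exact ⟨⟨⟨by omega, h2⟩, h3⟩, h4⟩
    · rintro ⟨⟨⟨h1, h2⟩, h3⟩, h4⟩
      rcases le_or_gt p b with h | h
      · exact Or.inl ⟨⟨⟨h1, h⟩, h3⟩, h4⟩
      · exact Or.inr ⟨⟨⟨h, h2⟩, h3⟩, h4⟩
  · rw [disjoint_left]
    intro p hp hq
    rw [mem_filter, Pr_mem] at hp hq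
    omega

theorem one_le_EE (a b : ℕ) : 1 ≤ EE a b := by
  unfold EE
  rw [Real.one_le_exp_iff]
  exact sum_nonneg fun p _ => by positivity

/-- `VV` from below -/
theorem VV_ge {r a b : ℕ} {Z : ℕ → Finset ℕ} (ha : 2 * r ≤ a) (hZ : Sv r a b Z) :
    1 / EE a b ^ (2 * r) ≤ VV Z a b := by
  have h1 : ∀ p ∈ Pr a b, Real.exp (-(2 * r) * ((1 : ℝ) / p)) ≤ 1 - ((Z p).card : ℝ) / p := by
    intro p hp
    have hp1 := Pr_mem.1 hp
    have hp0 : (0 : ℝ) < p := by exact_mod_cast hp1.2.pos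
    have h2 : ((Z p).card : ℝ) / p ≤ r / p := by
      have : ((Z p).card : ℝ) ≤ r := by exact_mod_cast (hZ p hp).1
      gcongr
    have h3 : (r : ℝ) / p ≤ 1 / 2 := by
      rw [div_le_iff₀ hp0]
      have : (2 * r : ℕ) ≤ p := by omega
      have : (2 * (r : ℝ)) ≤ p := by exact_mod_cast this
      linarith
    obtain ⟨y, hy⟩ : ∃ y : ℝ, y = (r : ℝ) / p := ⟨_, rfl⟩
    have hy0 : 0 ≤ y := by rw [hy]; positivity
    rw [← hy] at h2 h3
    have h4 : -(2 * (r : ℝ)) * ((1 : ℝ) / p) = -(2 * y) := by rw [hy]; ring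
    rw [h4, Real.exp_neg]
    have h5 : 1 + 2 * y ≤ Real.exp (2 * y) := by
      have := Real.add_one_le_exp (2 * y)
      linarith
    have h6 : (Real.exp (2 * y))⁻¹ ≤ (1 + 2 * y)⁻¹ := inv_anti₀ (by linarith) h5
    have h7 : (1 + 2 * y)⁻¹ ≤ 1 - y := by
      rw [inv_le_iff_one_le_mul₀ (by linarith)]
      nlinarith
    linarith
  calc 1 / EE a b ^ (2 * r) = ∏ p ∈ Pr a b, Real.exp (-(2 * r) * ((1 : ℝ) / p)) := by
        rw [← Real.exp_sum, ← mul_sum]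
        unfold EE
        rw [← Real.exp_nat_mul, one_div, ← Real.exp_neg]
        congr 1
        push_cast
        ring
    _ ≤ VV Z a b := prod_le_prod (fun p _ => (Real.exp_pos _).le) h1

theorem EE_le_nat {a b : ℕ} (hb : 1 ≤ b) : EE a b ≤ b := by
  have hb0 : (0 : ℝ) < b := by exact_mod_cast hb
  unfold EE
  refine le_of_le_of_eq (Real.exp_le_exp.2 (?_ : _ ≤ Real.log b)) (Real.exp_log hb0)
  have h1 := harmonic_le_one_add_log b
  have h2 : ((harmonic b : ℚ) : ℝ) = ∑ i ∈ Icc 1 b, ((i : ℝ))⁻¹ := by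
    rw [harmonic_eq_sum_Icc]
    push_cast
    rfl
  rw [h2] at h1
  have h3 : Icc 1 b = insert 1 (Icc 2 b) := by
    ext i
    simp only [mem_Icc, mem_insert]
    omega
  rw [h3, sum_insert (by simp)] at h1
  have h4 : ∑ p ∈ Pr a b, (1 : ℝ) / p ≤ ∑ i ∈ Icc 2 b, ((i : ℝ))⁻¹ := by
    simp_rw [one_div]
    apply sum_le_sum_of_subset_of_nonneg
    · intro p hp
      rw [Pr_mem] at hp
      rw [mem_Icc]
      exact ⟨hp.2.two_le, hp.1.2⟩
    · intro i _ _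
      positivity
  simp only [Nat.cast_one, inv_one] at h1
  linarith

theorem EE_tower : ∃ c : ℝ, 1 ≤ c ∧ ∀ g J : ℕ, g ≤ J →
    EE (2 ^ 2 ^ (J - g)) (2 ^ 2 ^ J) ≤ c * 2 ^ g := by
  obtain ⟨C, hC0, hC⟩ := Pool.Agent.Helper923.HMertens.mertens_ratio
  have hl2 : (0 : ℝ) < Real.log 2 := Real.log_pos (by norm_num)
  refine ⟨Real.exp (C / Real.log 2), Real.one_le_exp_iff.2 (by positivity), ?_⟩
  intro g J hg
  have h2 : 2 ≤ 2 ^ 2 ^ (J - g) := by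
    calc 2 = 2 ^ 1 := (pow_one 2).symm
      _ ≤ 2 ^ 2 ^ (J - g) := Nat.pow_le_pow_right (by norm_num) (Nat.one_le_two_pow)
  have h3 : 2 ^ 2 ^ (J - g) ≤ 2 ^ 2 ^ J :=
    Nat.pow_le_pow_right (by norm_num) (Nat.pow_le_pow_right (by norm_num) (Nat.sub_le _ _))
  have h4 := hC _ _ h2 h3
  have h5 : Real.log ((2 ^ 2 ^ J : ℕ) : ℝ) / Real.log ((2 ^ 2 ^ (J - g) : ℕ) : ℝ) = 2 ^ g := by
    push_cast
    rw [Real.log_pow, Real.log_pow]
    push_cast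
    rw [mul_div_mul_right _ _ hl2.ne', div_eq_iff (by positivity), ← pow_add]
    congr 1
    omega
  rw [h5] at h4
  have h6 : C / Real.log ((2 ^ 2 ^ (J - g) : ℕ) : ℝ) ≤ C / Real.log 2 := by
    apply div_le_div_of_nonneg_left hC0 hl2
    apply Real.log_le_log (by norm_num)
    exact_mod_cast h2
  have h7 : ∑ p ∈ Pr (2 ^ 2 ^ (J - g)) (2 ^ 2 ^ J), (1 : ℝ) / p ≤
      C / Real.log 2 + Real.log (2 ^ g) := by
    have := (abs_le.1 h4).2
    unfold Pr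
    linarith
  unfold EE
  refine (Real.exp_le_exp.2 h7).trans (le_of_eq ?_)
  rw [Real.exp_add, Real.exp_log (by positivity)]

/-- the local factors, uniformly in the number of the shifts -/
theorem LOCu (h : S_LOC) (r M : ℕ) : ∃ K : ℕ, ∀ ε : ℝ, 0 < ε → ∃ s₀ : ℕ, ∀ m ≤ M, ∀ s z : ℕ,
    s₀ ≤ s → ∀ Z : ℕ → Finset ℕ, Sv r s z Z → ∀ u : Fin m → ℕ,
    (1 - ε) * VV Z s z ^ m ≤ ∏ p ∈ Pr s z, (1 - ((Om Z u p).card : ℝ) / p) ∧
    ∏ p ∈ Pr s z, (1 - ((Om Z u p).card : ℝ) / p) ≤ VV Z s z ^ m * Coll K Z s z u := by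
  choose Kf hKf using h r
  refine ⟨(range (M + 1)).sup Kf, ?_⟩
  intro ε hε
  choose sf hsf using fun m => hKf m ε hε
  refine ⟨max (2 * r) ((range (M + 1)).sup sf), ?_⟩
  intro m hm s z hs Z hZ u
  have h1 : sf m ≤ s := (le_sup (f := sf) (mem_range.2 (by omega))).trans
    ((le_max_right _ _).trans hs)
  have h2 : Kf m ≤ (range (M + 1)).sup Kf := le_sup (f := Kf) (mem_range.2 (by omega))
  obtain ⟨h3, h4⟩ := hsf m s z h1 Z hZ u
  refine ⟨h3, h4.trans ?_⟩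
  apply mul_le_mul_of_nonneg_left (Coll_mono h2 Z s z u)
  apply pow_nonneg
  have := VV_ge ((le_max_left _ _).trans hs) hZ
  refine le_trans ?_ this
  have := one_le_EE s z
  positivity

/-- the tuple sums, uniformly in the number of the shifts -/
theorem TUPu (h : S_TUP) (r M : ℕ) : ∃ K : ℕ, ∀ m ≤ M, ∀ z R : ℕ, K ≤ z → ∀ Z : ℕ → Finset ℕ,
    Sv r z R Z → ∀ θ : Finset ℕ → ℝ, (∀ U, |θ U| ≤ 1) → ∀ u : Fin m → ℕ,
    |∑ U ∈ Fintype.piFinset (fun _ : Fin m => (Pr z R).powerset), aU Z θ u U - qq Z z R θ ^ m| ≤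
      EE z R ^ K * (Coll K Z z R u - 1 + K / z) ∧
    ∑ U ∈ Fintype.piFinset (fun _ : Fin m => (Pr z R).powerset), |aU Z θ u U| ≤
      EE z R ^ K * Coll K Z z R u := by
  choose Kf hKf using h r
  refine ⟨(range (M + 1)).sup Kf, ?_⟩
  intro m hm z R hz Z hZ θ hθ u
  have h2 : Kf m ≤ (range (M + 1)).sup Kf := le_sup (f := Kf) (mem_range.2 (by omega))
  obtain ⟨h3, h4⟩ := hKf m z R (h2.trans hz) Z hZ θ hθ u
  have h5 : EE z R ^ Kf m ≤ EE z R ^ (range (M + 1)).sup Kf :=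
    pow_le_pow_right₀ (one_le_EE z R) h2
  have h6 := Coll_mono h2 Z z R u
  have h7 := one_le_Coll (Z := Z) (s := z) (R := R) (Kf m) u
  have h8 : (0 : ℝ) ≤ EE z R ^ (range (M + 1)).sup Kf := by
    have := one_le_EE z R
    positivity
  have h9 : ((Kf m : ℕ) : ℝ) / z ≤ (((range (M + 1)).sup Kf : ℕ) : ℝ) / z := by
    have : ((Kf m : ℕ) : ℝ) ≤ (((range (M + 1)).sup Kf : ℕ) : ℝ) := by exact_mod_cast h2
    gcongr
  have h10 : (0 : ℝ) ≤ ((Kf m : ℕ) : ℝ) / z := by positivity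
  constructor
  · refine h3.trans (mul_le_mul h5 (by linarith) (by linarith) h8)
  · exact h4.trans (mul_le_mul h5 h6 (by linarith) h8)

theorem tower_ge (n : ℕ) : n ≤ 2 ^ 2 ^ n :=
  (Nat.lt_two_pow_self.le).trans (Nat.pow_le_pow_right (by norm_num) Nat.lt_two_pow_self.le)

/-- the choice of `g` -/
theorem exists_g (c : ℝ) (L B : ℕ) (δ : ℝ) (hδ : 0 < δ) :
    ∃ g : ℕ, B ≤ 2 ^ g ∧ (1 / 2 : ℝ) ^ 2 ^ g * (c * 2 ^ g) ^ L ≤ δ := by
  have h1 := tendsto_pow_const_mul_const_pow_of_abs_lt_one L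
    (show |(1 / 2 : ℝ)| < 1 by rw [abs_of_pos (by norm_num)]; norm_num)
  have h2 : Tendsto (fun g : ℕ => 2 ^ g) atTop atTop := tendsto_pow_atTop_atTop_of_one_lt (by norm_num)
  have h3 := h1.comp h2
  have h4 : Tendsto (fun g : ℕ => c ^ L * ((fun n : ℕ => (n : ℝ) ^ L * (1 / 2 : ℝ) ^ n) (2 ^ g)))
      atTop (𝓝 (c ^ L * 0)) := h3.const_mul _
  rw [mul_zero] at h4
  obtain ⟨g, hg1, hg2⟩ := ((h4.eventually (gt_mem_nhds hδ)).and (eventually_ge_atTop B)).exists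
  refine ⟨g, (hg2.trans Nat.lt_two_pow_self.le), ?_⟩
  refine le_of_eq_of_le ?_ hg1.le
  push_cast
  rw [mul_pow]
  ring

end Pool.Agent.Y843.HS
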