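import Pool.Agent.Y843.HS.Gd

/-!
# The weight satisfies the linear forms condition in most windows (adapted from `Y79.PSP.MK`)
-/

set_option autoImplicit false

namespace Pool.Agent.Y843.HS

open Finset
open Pool.Agent.H602R3.DHJ (av av_prod av_const av_mono av_nonneg av_add av_sub av_mul av_sum)
open Pool.Agent.Y727.PSP
open Pool.Agent.Y79.PSP.MK (card_fiber rp_mem rp_inj av_abs_le frm frm_sep frm_ne)

/-- the weight in the window at `x` -/
def nuX (ν : ℕ → ℝ) (N x : ℕ) (a : ZMod N) : ℝ := ν (x + rp a)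

/-- the correlations in the windows are close to one -/
def Cor (ν : ℕ → ℝ) (M : ℕ) (E : ℝ) (A X N : ℕ) : Prop :=
  ∀ (Y : Type) [AddCommGroup Y] [Fintype Y] (I : Type) [Fintype I], Fintype.card I ≤ M →
    ∀ f : I → Y →+ ZMod N, (∀ i j, i ≠ j → ∃ v, f i v ≠ f j v) →
    |(∑ x ∈ Ioc A (A + X), av (fun y : Y => ∏ i, nuX ν N x (f i y))) / X - 1| ≤ E

theorem cor_of {Z : ℕ → Finset ℕ} {s R : ℕ} {ν : ℕ → ℝ} {M K A X N : ℕ} {ε E : ℝ} [NeZero N]
    [Fact N.Prime] (hX : 1 ≤ X)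
    (h : ∀ m ≤ M, ∀ u : Fin m → ℕ, |(∑ x ∈ Ioc A (A + X), ∏ i, ν (x + u i)) / X - 1| ≤
      ε + K * (Coll K Z s R u - 1))
    (hE : ∀ m ≤ M, (∑ h ∈ Ioo (-(N : ℤ)) N, (Gd (m ^ 2 * K * (1 + K) ^ m ^ 2) Z s R h - 1)) / N ≤ E)
    (hE0 : 0 ≤ E) : Cor ν M (ε + K * (M ^ 2 * E)) A X N := by
  classical
  intro Y _ _ I _ hI f hf
  have e : I ≃ Fin (Fintype.card I) := Fintype.equivFin I
  have hX' : (0 : ℝ) < X := by exact_mod_cast hX
  set P : Y → ℝ := fun y => (∑ x ∈ Ioc A (A + X), ∏ i, nuX ν N x (f i y)) / X - 1 with hP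
  have h1 : (∑ x ∈ Ioc A (A + X), av (fun y : Y => ∏ i, nuX ν N x (f i y))) / X - 1 = av P := by
    rw [hP, av_sub, av_const, ← av_sum]
    congr 1
    simp_rw [div_eq_inv_mul]
    rw [av_mul]
  rw [h1]
  refine (av_abs_le P).trans ?_
  have h2 : ∀ y, |P y| ≤ ε + K * (Coll K Z s R (fun i => rp (f (e.symm i) y)) - 1) := by
    intro y
    have h3 := h (Fintype.card I) hI (fun i => rp (f (e.symm i) y))
    have h4 : ∀ x, ∏ i, ν (x + rp (f (e.symm i) y)) = ∏ i, nuX ν N x (f i y) := by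
      intro x
      exact Equiv.prod_comp e.symm (fun i => ν (x + rp (f i y)))
    simp_rw [h4] at h3
    exact h3
  refine (av_mono h2).trans ?_
  rw [av_add, av_const, av_mul]
  have h5 := av_Coll (Z := Z) (s := s) (R := R) K (fun i => f (e.symm i)) (fun i j hij =>
    hf _ _ (fun h => hij (e.symm.injective h))) (hE _ hI)
  have h6 : ((Fintype.card I : ℕ) : ℝ) ^ 2 * E ≤ (M : ℝ) ^ 2 * E := by
    apply mul_le_mul_of_nonneg_right _ hE0
    exact pow_le_pow_left₀ (Nat.cast_nonneg _) (by exact_mod_cast hI) 2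
  have h7 := mul_le_mul_of_nonneg_left (h5.trans h6) (Nat.cast_nonneg (α := ℝ) K)
  linarith

theorem lemC {ν : ℕ → ℝ} {M : ℕ} {E : ℝ} {A X N : ℕ} [NeZero N] [Fact N.Prime]
    (h : Cor ν M E A X N) (hX : 1 ≤ X) {Y : Type} [AddCommGroup Y] [Fintype Y]
    {I : Type} [Fintype I] (hI : 2 * Fintype.card I ≤ M) (f : I → Y →+ ZMod N)
    (hf : ∀ i j, i ≠ j → ∃ v, f i v ≠ f j v) (hf0 : ∀ i, ∃ v, f i v ≠ 0) :
    ∑ x ∈ Ioc A (A + X), (av (fun y : Y => ∏ i, nuX ν N x (f i y)) - 1) ^ 2 ≤ 3 * E * X := by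
  classical
  have hX' : (0 : ℝ) < X := by exact_mod_cast hX
  have hcard : (Ioc A (A + X)).card = X := by rw [Nat.card_Ioc]; omega
  have h1 := h Y I (by omega) f hf
  let g : I ⊕ I → Y × Y →+ ZMod N := Sum.elim (fun i => (f i).comp (AddMonoidHom.fst Y Y))
    (fun i => (f i).comp (AddMonoidHom.snd Y Y))
  have hg : ∀ i j, i ≠ j → ∃ v, g i v ≠ g j v := by
    rintro (i | i) (j | j) hij
    · obtain ⟨v, hv⟩ := hf i j (fun h => hij (by rw [h]))
      exact ⟨(v, 0), by simpa [g] using hv⟩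
    · obtain ⟨v, hv⟩ := hf0 i
      exact ⟨(v, 0), by simpa [g] using hv⟩
    · obtain ⟨v, hv⟩ := hf0 i
      exact ⟨(0, v), by simpa [g] using hv⟩
    · obtain ⟨v, hv⟩ := hf i j (fun h => hij (by rw [h]))
      exact ⟨(0, v), by simpa [g] using hv⟩
  have h2 := h (Y × Y) (I ⊕ I) (by rw [Fintype.card_sum]; omega) g hg
  have h3 : ∀ x, av (fun y : Y × Y => ∏ i, nuX ν N x (g i y)) =
      (av (fun y : Y => ∏ i, nuX ν N x (f i y))) ^ 2 := by
    intro x
    rw [av_prod]
    have h4 : ∀ a b : Y, ∏ i, nuX ν N x (g i (a, b)) =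
        (∏ i, nuX ν N x (f i a)) * ∏ i, nuX ν N x (f i b) := by
      intro a b
      rw [Fintype.prod_sum_type]
      rfl
    simp_rw [h4]
    simp_rw [av_mul]
    have h5 : av (fun a : Y => (∏ i, nuX ν N x (f i a)) *
        av (fun b : Y => ∏ i, nuX ν N x (f i b))) =
        av (fun a : Y => av (fun b : Y => ∏ i, nuX ν N x (f i b)) *
          ∏ i, nuX ν N x (f i a)) := by
      congr 1
      funext a
      rw [mul_comm]
    rw [h5, av_mul, pow_two]
  simp_rw [h3] at h2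
  set F : ℕ → ℝ := fun x => av (fun y : Y => ∏ i, nuX ν N x (f i y)) with hF
  change |(∑ x ∈ Ioc A (A + X), F x) / X - 1| ≤ _ at h1
  change |(∑ x ∈ Ioc A (A + X), F x ^ 2) / X - 1| ≤ _ at h2
  change ∑ x ∈ Ioc A (A + X), (F x - 1) ^ 2 ≤ _
  have h6 : ∑ x ∈ Ioc A (A + X), (F x - 1) ^ 2 =
      (((∑ x ∈ Ioc A (A + X), F x ^ 2) / X - 1) -
        2 * ((∑ x ∈ Ioc A (A + X), F x) / X - 1)) * X := by
    have h7 : ∑ x ∈ Ioc A (A + X), (F x - 1) ^ 2 =
        ∑ x ∈ Ioc A (A + X), F x ^ 2 - 2 * ∑ x ∈ Ioc A (A + X), F x + X := by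
      simp_rw [sub_sq]
      rw [sum_add_distrib, sum_sub_distrib, mul_sum]
      simp only [mul_one, one_pow, sum_const, hcard, nsmul_eq_mul]
    rw [h7]
    field_simp
    ring
  rw [h6]
  apply mul_le_mul_of_nonneg_right _ hX'.le
  have h8 := (abs_le.1 h1).1
  have h9 := (abs_le.1 h2).2
  linarith

open Classical in
/-- (LFM) the linear forms condition in most windows -/
theorem lfm {k : ℕ} (hk : 2 ≤ k) {ν : ℕ → ℝ} {M : ℕ} {η E : ℝ} {A X N : ℕ} [NeZero N]
    [Fact N.Prime] (hkN : k ≤ N) (h : Cor ν M E A X N)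
    (hX : 1 ≤ X) (hM : 2 * (k * 2 ^ k) ≤ M) (hη : 0 < η)
    (h1 : 3 * E ≤ η ^ 2) (h2 : 2 ^ (k * 2 ^ k) * (3 * E) ≤ η ^ 3) :
    ∑ x ∈ Ioc A (A + X), |av (nuX ν N x) - 1| ≤ η * X ∧
    (((Ioc A (A + X)).filter (fun x => ¬ LFk k N (nuX ν N x) η)).card : ℝ) ≤ η * X := by
  have hX' : (0 : ℝ) < X := by exact_mod_cast hX
  have hcard : (Ioc A (A + X)).card = X := by rw [Nat.card_Ioc]; omega
  have hk1 : 1 ≤ k * 2 ^ k := Nat.mul_pos (by omega) (by positivity)
  constructor
  · have h3 := lemC h hX (I := Unit) (by rw [Fintype.card_unit]; omega)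
      (fun _ => AddMonoidHom.id (ZMod N)) (fun i j hij => absurd (Subsingleton.elim i j) hij)
      (fun _ => ⟨1, by simp⟩)
    have h4 : ∀ x, av (fun y : ZMod N => ∏ i : Unit, nuX ν N x (AddMonoidHom.id (ZMod N) y)) =
        av (nuX ν N x) := by
      intro x
      congr 1
      funext y
      simp
    simp_rw [h4] at h3
    have h5 : ∀ x ∈ Ioc A (A + X), |av (nuX ν N x) - 1| ≤
        η / 2 + (av (nuX ν N x) - 1) ^ 2 / (2 * η) := by
      intro x _
      set y := av (nuX ν N x) - 1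
      have h6 : η / 2 + y ^ 2 / (2 * η) = (η ^ 2 + y ^ 2) / (2 * η) := by
        field_simp
      rw [h6, le_div_iff₀ (by positivity)]
      nlinarith [sq_nonneg (|y| - η), sq_abs y]
    refine (sum_le_sum h5).trans ?_
    rw [sum_add_distrib, sum_const, hcard, nsmul_eq_mul, ← sum_div]
    have h6 : (∑ x ∈ Ioc A (A + X), (av (nuX ν N x) - 1) ^ 2) / (2 * η) ≤ η / 2 * X := by
      rw [div_le_iff₀ (by positivity)]
      calc ∑ x ∈ Ioc A (A + X), (av (nuX ν N x) - 1) ^ 2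
          ≤ 3 * E * X := h3
        _ ≤ η ^ 2 * X := mul_le_mul_of_nonneg_right h1 hX'.le
        _ = η / 2 * X * (2 * η) := by ring
    linarith
  · set TT : Finset (Finset (Fin k × Finset (Fin k))) :=
      univ.filter (fun T => ∀ t ∈ T, t.1 ∉ t.2) with hTT
    set bad : Finset (Fin k × Finset (Fin k)) → Finset ℕ := fun T =>
      (Ioc A (A + X)).filter (fun x => η < |av (fun y : Fin k → ZMod N × ZMod N =>
        ∏ t ∈ T, nuX ν N x (Lf t.1 (sl t.2 y))) - 1|) with hbad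
    have hsub : (Ioc A (A + X)).filter (fun x => ¬ LFk k N (nuX ν N x) η) ⊆
        TT.biUnion bad := by
      intro x hx
      rw [mem_filter] at hx
      have h3 := hx.2
      unfold LFk LF at h3
      push Not at h3
      obtain ⟨T, hT, h4⟩ := h3
      rw [mem_biUnion]
      exact ⟨T, by rw [hTT, mem_filter]; exact ⟨mem_univ _, hT⟩, by
        rw [hbad, mem_filter]; exact ⟨hx.1, h4⟩⟩
    have hone : ∀ T ∈ TT, ((bad T).card : ℝ) * 2 ^ (k * 2 ^ k) ≤ η * X := by
      intro T hT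
      rw [hTT, mem_filter] at hT
      have hcT : Fintype.card T ≤ k * 2 ^ k := by
        rw [Fintype.card_coe]
        refine (card_le_univ _).trans (le_of_eq ?_)
        rw [Fintype.card_prod, Fintype.card_fin, Fintype.card_finset, Fintype.card_fin]
      have h3 := lemC h hX (I := T) (by omega)
        (fun t => (frm (t : Fin k × Finset (Fin k)) :
          (Fin k → ZMod N × ZMod N) →+ ZMod N))
        (fun t t' htt => frm_sep hkN t t' (hT.2 t t.2) (hT.2 t' t'.2)
          (fun h => htt (Subtype.ext h)))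
        (fun t => frm_ne hk hkN t)
      have h4 : ∀ x, av (fun y : Fin k → ZMod N × ZMod N => ∏ t : T, nuX ν N x
          (frm (t : Fin k × Finset (Fin k)) y)) =
          av (fun y : Fin k → ZMod N × ZMod N =>
            ∏ t ∈ T, nuX ν N x (Lf t.1 (sl t.2 y))) := by
        intro x
        congr 1
        funext y
        exact prod_coe_sort T (fun t => nuX ν N x (Lf t.1 (sl t.2 y)))
      simp_rw [h4] at h3
      have h5 : ((bad T).card : ℝ) * η ^ 2 ≤ 3 * E * X := by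
        refine le_trans ?_ h3
        calc ((bad T).card : ℝ) * η ^ 2 = ∑ x ∈ bad T, η ^ 2 := by
              rw [sum_const, nsmul_eq_mul]
          _ ≤ ∑ x ∈ bad T, (av (fun y : Fin k → ZMod N × ZMod N =>
            ∏ t ∈ T, nuX ν N x (Lf t.1 (sl t.2 y))) - 1) ^ 2 := by
              apply sum_le_sum
              intro x hx
              rw [hbad, mem_filter] at hx
              rw [← sq_abs (av _ - 1)]
              exact pow_le_pow_left₀ hη.le hx.2.le 2
          _ ≤ _ := sum_le_sum_of_subset_of_nonneg (filter_subset _ _)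
              (fun x _ _ => sq_nonneg _)
      have h6 : ((bad T).card : ℝ) * 2 ^ (k * 2 ^ k) * η ^ 2 ≤ η * X * η ^ 2 := by
        calc ((bad T).card : ℝ) * 2 ^ (k * 2 ^ k) * η ^ 2
            = 2 ^ (k * 2 ^ k) * (((bad T).card : ℝ) * η ^ 2) := by ring
          _ ≤ 2 ^ (k * 2 ^ k) * (3 * E * X) :=
              mul_le_mul_of_nonneg_left h5 (by positivity)
          _ = (2 ^ (k * 2 ^ k) * (3 * E)) * X := by ring
          _ ≤ η ^ 3 * X := mul_le_mul_of_nonneg_right h2 hX'.le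
          _ = η * X * η ^ 2 := by ring
      exact le_of_mul_le_mul_right h6 (by positivity)
    have hTTc : TT.card ≤ 2 ^ (k * 2 ^ k) := by
      refine (card_le_univ _).trans (le_of_eq ?_)
      rw [Fintype.card_finset, Fintype.card_prod, Fintype.card_fin, Fintype.card_finset,
        Fintype.card_fin]
    have h7 : (((Ioc A (A + X)).filter (fun x => ¬ LFk k N (nuX ν N x) η)).card : ℝ) ≤
        ∑ T ∈ TT, ((bad T).card : ℝ) := by
      have := (card_le_card hsub).trans card_biUnion_le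
      exact_mod_cast this
    have h8 : (∑ T ∈ TT, ((bad T).card : ℝ)) * 2 ^ (k * 2 ^ k) ≤ η * X * 2 ^ (k * 2 ^ k) := by
      rw [sum_mul]
      calc ∑ T ∈ TT, ((bad T).card : ℝ) * 2 ^ (k * 2 ^ k) ≤ ∑ T ∈ TT, η * X := sum_le_sum hone
        _ = TT.card * (η * X) := by rw [sum_const, nsmul_eq_mul]
        _ ≤ 2 ^ (k * 2 ^ k) * (η * X) := by
            apply mul_le_mul_of_nonneg_right _ (by positivity)
            exact_mod_cast hTTc
        _ = η * X * 2 ^ (k * 2 ^ k) := by ring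
    exact h7.trans (le_of_mul_le_mul_right h8 (by positivity))

end Pool.Agent.Y843.HS
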