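import Pool.Agent.Y843.HS.Stm
import Pool.Agent.TH423.SH.FLIP

/-!
# The number of `x` in prescribed classes, sifted
-/

set_option autoImplicit false

namespace Pool.Agent.Y843.HS

open Finset

/-- the number of residues modulo a product of primes with prescribed classes -/
theorem card_res (W : Finset ℕ) (hW : ∀ p ∈ W, p.Prime) (cl : ℕ → Finset ℕ)
    (hcl : ∀ p ∈ W, ∀ c ∈ cl p, c < p) :
    ((range (∏ p ∈ W, p)).filter (fun a => ∀ p ∈ W, a % p ∈ cl p)).card = ∏ p ∈ W, (cl p).card := by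
  classical
  induction W using Finset.induction_on with
  | empty => simp
  | insert p W hp ih =>
    have ih' := ih (fun q hq => hW q (mem_insert_of_mem hq)) (fun q hq => hcl q (mem_insert_of_mem hq))
    have hpp := hW p (mem_insert_self p W)
    have hcop : Nat.Coprime p (∏ r ∈ W, r) := by
      apply Nat.Coprime.prod_right
      intro r hr
      refine (Nat.coprime_primes hpp (hW r (mem_insert_of_mem hr))).2 ?_
      rintro rfl
      exact hp hr
    have hpos : 0 < ∏ r ∈ W, r := prod_pos fun r hr => (hW r (mem_insert_of_mem hr)).pos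
    rw [prod_insert hp, prod_insert hp, ← ih', ← card_product]
    apply card_bij (fun a _ => (a % p, a % ∏ r ∈ W, r))
    · intro a ha
      rw [mem_filter] at ha
      rw [mem_product, mem_filter, mem_range]
      refine ⟨ha.2 p (mem_insert_self p W), Nat.mod_lt _ hpos, ?_⟩
      intro r hr
      rw [Nat.mod_mod_of_dvd _ (dvd_prod_of_mem _ hr)]
      exact ha.2 r (mem_insert_of_mem hr)
    · intro a ha b hb hab
      rw [mem_filter, mem_range] at ha hb
      rw [Prod.mk.injEq] at hab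
      have h1 : a ≡ b [MOD p * ∏ r ∈ W, r] :=
        (Nat.modEq_and_modEq_iff_modEq_mul hcop).1 ⟨hab.1, hab.2⟩
      have h2 : a % (p * ∏ r ∈ W, r) = b % (p * ∏ r ∈ W, r) := h1
      rwa [Nat.mod_eq_of_lt ha.1, Nat.mod_eq_of_lt hb.1] at h2
    · rintro ⟨c, d⟩ hcd
      rw [mem_product, mem_filter, mem_range] at hcd
      obtain ⟨hc, hd, hd'⟩ := hcd
      simp only at hc hd hd'
      obtain ⟨w, hw1, hw2⟩ := Nat.chineseRemainder hcop c d
      have hlt : w % (p * ∏ r ∈ W, r) < p * ∏ r ∈ W, r := Nat.mod_lt _ (Nat.mul_pos hpp.pos hpos)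
      have e1 : w % (p * ∏ r ∈ W, r) % p = c := by
        rw [Nat.mod_mod_of_dvd _ (dvd_mul_right _ _)]
        have : w % p = c % p := hw1
        rw [this, Nat.mod_eq_of_lt (hcl p (mem_insert_self p W) c hc)]
      have e2 : w % (p * ∏ r ∈ W, r) % (∏ r ∈ W, r) = d := by
        rw [Nat.mod_mod_of_dvd _ (dvd_mul_left _ _)]
        have : w % (∏ r ∈ W, r) = d % (∏ r ∈ W, r) := hw2
        rw [this, Nat.mod_eq_of_lt hd]
      refine ⟨w % (p * ∏ r ∈ W, r), ?_, by rw [Prod.mk.injEq]; exact ⟨e1, e2⟩⟩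
      rw [mem_filter, mem_range]
      refine ⟨hlt, ?_⟩
      intro r hr
      rcases mem_insert.1 hr with h | h
      · subst h
        rw [e1]
        exact hc
      · have h3 := hd' r h
        rwa [← e2, Nat.mod_mod_of_dvd _ (dvd_prod_of_mem _ h)] at h3

/-- the classes of one shift -/
theorem card_shift (p u : ℕ) (T : Finset ℕ) :
    ((range p).filter (fun c => (c + u) % p ∈ T)).card ≤ T.card := by
  apply card_le_card_of_injOn (fun c => (c + u) % p)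
  · intro c hc
    rw [mem_coe, mem_filter] at hc
    exact hc.2
  · intro c hc d hd h
    rw [mem_coe, mem_filter, mem_range] at hc hd
    have h1 : c + u ≡ d + u [MOD p] := h
    have h2 : c ≡ d [MOD p] := Nat.ModEq.add_right_cancel' u h1
    have h3 : c % p = d % p := h2
    rwa [Nat.mod_eq_of_lt hc.1, Nat.mod_eq_of_lt hd.1] at h3

theorem card_Om (Z : ℕ → Finset ℕ) {m : ℕ} (u : Fin m → ℕ) {p r : ℕ}
    (hr : (Z p).card ≤ r) : (Om Z u p).card ≤ m * r := by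
  classical
  have h1 : Om Z u p ⊆ univ.biUnion (fun i : Fin m => (range p).filter (fun c => (c + u i) % p ∈ Z p)) := by
    intro c hc
    unfold Om at hc
    rw [mem_filter] at hc
    obtain ⟨hc1, i, hi⟩ := hc
    rw [mem_biUnion]
    exact ⟨i, mem_univ _, by rw [mem_filter]; exact ⟨hc1, hi⟩⟩
  refine (card_le_card h1).trans (card_biUnion_le.trans ?_)
  calc ∑ i : Fin m, ((range p).filter (fun c => (c + u i) % p ∈ Z p)).card
      ≤ ∑ _i : Fin m, r := sum_le_sum fun i _ => (card_shift p (u i) (Z p)).trans hr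
    _ = m * r := by rw [sum_const, card_univ, Fintype.card_fin, smul_eq_mul]

theorem Sv_Om {Z : ℕ → Finset ℕ} {r s z m : ℕ} (hZ : Sv r s z Z) (u : Fin m → ℕ) :
    Sv (m * r) s z (Om Z u) := by
  intro p hp
  have hp0 : 0 < p := by
    unfold Pr at hp
    rw [mem_filter] at hp
    exact hp.2.pos
  refine ⟨card_Om Z u (hZ p hp).1, ?_⟩
  intro c hc
  unfold Om at hc
  rw [mem_filter, mem_range] at hc
  exact hc.1

/-- the classes modulo `p` for the families `U` -/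
def cU (Z : ℕ → Finset ℕ) {m : ℕ} (u : Fin m → ℕ) (U : Fin m → Finset ℕ) (p : ℕ) : Finset ℕ :=
  (range p).filter (fun c => ∀ i, p ∈ U i → (c + u i) % p ∈ Z p)

theorem mod_add_mod' (x u p : ℕ) : (x % p + u) % p = (x + u) % p := Nat.mod_add_mod x p u

/-- membership of the sifted set -/
theorem mem_Om_iff (Z : ℕ → Finset ℕ) {m : ℕ} (u : Fin m → ℕ) {p : ℕ} (hp : 0 < p) (x : ℕ) :
    x % p ∈ Om Z u p ↔ ∃ i, (x + u i) % p ∈ Z p := by
  unfold Om
  rw [mem_filter, mem_range]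
  simp_rw [mod_add_mod']
  exact ⟨fun h => h.2, fun h => ⟨Nat.mod_lt _ hp, h⟩⟩

theorem mem_cU_iff (Z : ℕ → Finset ℕ) {m : ℕ} (u : Fin m → ℕ) (U : Fin m → Finset ℕ) {p : ℕ}
    (hp : 0 < p) (x : ℕ) :
    x % p ∈ cU Z u U p ↔ ∀ i, p ∈ U i → (x + u i) % p ∈ Z p := by
  unfold cU
  rw [mem_filter, mem_range]
  simp_rw [mod_add_mod']
  exact ⟨fun h => h.2, fun h => ⟨Nat.mod_lt _ hp, h⟩⟩

open Classical in
/-- the sifted `x` with all the shifts in the classes of the families `U` -/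
noncomputable def SU (Z : ℕ → Finset ℕ) (s z A X : ℕ) {m : ℕ} (u : Fin m → ℕ)
    (U : Fin m → Finset ℕ) : Finset ℕ :=
  (Ioc A (A + X)).filter (fun x => (∀ i, ∀ p ∈ Pr s z, (x + u i) % p ∉ Z p) ∧
    ∀ i, ∀ p ∈ U i, (x + u i) % p ∈ Z p)

theorem Pr_prime {a b p : ℕ} (hp : p ∈ Pr a b) : p.Prime := by
  unfold Pr at hp
  rw [mem_filter] at hp
  exact hp.2

theorem Pr_mem {a b p : ℕ} : p ∈ Pr a b ↔ (a < p ∧ p ≤ b) ∧ p.Prime := by
  unfold Pr
  rw [mem_filter, mem_Ioc]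

open Classical in
/-- the sifted integers of a class modulo `D` -/
noncomputable def BB (Om : ℕ → Finset ℕ) (s z D a A X : ℕ) : Finset ℕ :=
  (Ioc A (A + X)).filter (fun x => x % D = a % D ∧ ∀ p ∈ Pr s z, x % p ∉ Om p)

/-- the fundamental lemma with a given constant -/
def FLc (C : ℕ) : Prop := ∀ κ b s J0 : ℕ, C * (κ + 1) ≤ b → C * (κ + 1) ≤ s →
  ∀ Om : ℕ → Finset ℕ, Sv κ s (2 ^ 2 ^ J0) Om → ∀ D a A X : ℕ, 1 ≤ D →
  (∀ p ∈ Pr s (2 ^ 2 ^ J0), ¬ p ∣ D) →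
  |((BB Om s (2 ^ 2 ^ J0) D a A X).card : ℝ) -
    (X : ℝ) / D * ∏ p ∈ Pr s (2 ^ 2 ^ J0), (1 - ((Om p).card : ℝ) / p)| ≤
    (1 / 2 : ℝ) ^ b * ((X : ℝ) / D * ∏ p ∈ Pr s (2 ^ 2 ^ J0), (1 - ((Om p).card : ℝ) / p)) +
      ((2 : ℝ) ^ 2 ^ J0) ^ (C * b)

theorem FLc_of (h : S_FLC) : ∃ C, 1 ≤ C ∧ FLc C := by
  obtain ⟨C, h1, h2⟩ := h
  refine ⟨C, h1, ?_⟩
  intro κ b s J0 hb hs Om hOm D a A X hD hpD
  have h3 := h2 κ b s J0 hb hs Om hOm D a A X hD hpD
  unfold BB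
  convert h3

/-- the number of these `x` -/
theorem card_SU {C : ℕ} (hC : FLc C) {m r b s J0 : ℕ} (hb : C * (m * r + 1) ≤ b)
    (hs : C * (m * r + 1) ≤ s) {R : ℕ} {Z : ℕ → Finset ℕ} (hZ : Sv r s (2 ^ 2 ^ J0) Z)
    (u : Fin m → ℕ) (A X : ℕ) (U : Fin m → Finset ℕ) (hU : ∀ i, U i ⊆ Pr (2 ^ 2 ^ J0) R) :
    |((SU Z s (2 ^ 2 ^ J0) A X u U).card : ℝ) -
      X * (∏ p ∈ Pr s (2 ^ 2 ^ J0), (1 - ((Om Z u p).card : ℝ) / p)) *
        ∏ p ∈ univ.biUnion U, (nU Z u U p : ℝ) / p| ≤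
      (1 / 2 : ℝ) ^ b * (X * (∏ p ∈ Pr s (2 ^ 2 ^ J0), (1 - ((Om Z u p).card : ℝ) / p)) *
        ∏ p ∈ univ.biUnion U, (nU Z u U p : ℝ) / p) +
      (∏ p ∈ univ.biUnion U, p : ℕ) * ((2 : ℝ) ^ 2 ^ J0) ^ (C * b) := by
  classical
  set W := univ.biUnion U with hW
  have hWP : ∀ p ∈ W, p ∈ Pr (2 ^ 2 ^ J0) R := by
    intro p hp
    rw [hW, mem_biUnion] at hp
    obtain ⟨i, _, hi⟩ := hp
    exact hU i hi
  have hWp : ∀ p ∈ W, p.Prime := fun p hp => Pr_prime (hWP p hp)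
  set D := ∏ p ∈ W, p with hD
  have hD1 : 1 ≤ D := Nat.one_le_iff_ne_zero.2 (prod_ne_zero_iff.2 fun p hp => (hWp p hp).ne_zero)
  have hD0 : (0 : ℝ) < D := by exact_mod_cast hD1
  set P := ∏ p ∈ Pr s (2 ^ 2 ^ J0), (1 - ((Om Z u p).card : ℝ) / p) with hP
  have hndvd : ∀ p ∈ Pr s (2 ^ 2 ^ J0), ¬ p ∣ D := by
    intro p hp hpD
    rw [hD, (Pr_prime hp).prime.dvd_finsetProd_iff] at hpD
    obtain ⟨q, hq, hpq⟩ := hpD
    have h1 := (Nat.prime_dvd_prime_iff_eq (Pr_prime hp) (hWp q hq)).1 hpq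
    have h2 := (Pr_mem.1 (hWP q hq)).1.1
    have h3 := (Pr_mem.1 hp).1.2
    omega
  set Ra := (range D).filter (fun a => ∀ p ∈ W, a % p ∈ cU Z u U p) with hRa
  have hRac : Ra.card = ∏ p ∈ W, (cU Z u U p).card :=
    card_res W hWp (cU Z u U) (fun p _ c hc => by
      unfold cU at hc
      rw [mem_filter, mem_range] at hc
      exact hc.1)
  set B : ℕ → Finset ℕ := fun a => BB (Om Z u) s (2 ^ 2 ^ J0) D a A X with hB
  have hcard : (SU Z s (2 ^ 2 ^ J0) A X u U).card = ∑ a ∈ Ra, (B a).card := by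
    rw [card_eq_sum_card_fiberwise (f := fun x => x % D) (t := Ra)]
    · apply sum_congr rfl
      intro a ha
      congr 1
      ext x
      rw [hB]
      simp only [SU, BB, mem_filter, mem_Ioc]
      have haD : a < D := by
        rw [hRa, mem_filter, mem_range] at ha
        exact ha.1
      constructor
      · rintro ⟨⟨h1, h2, h3⟩, h4⟩
        refine ⟨h1, by rw [h4, Nat.mod_eq_of_lt haD], ?_⟩
        intro p hp
        rw [mem_Om_iff Z u (Pr_prime hp).pos]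
        push Not
        exact fun i => h2 i p hp
      · rintro ⟨h1, h2, h3⟩
        rw [Nat.mod_eq_of_lt haD] at h2
        refine ⟨⟨h1, ?_, ?_⟩, h2⟩
        · intro i p hp hcon
          exact h3 p hp ((mem_Om_iff Z u (Pr_prime hp).pos x).2 ⟨i, hcon⟩)
        · intro i p hp
          have hpW : p ∈ W := by
            rw [hW, mem_biUnion]
            exact ⟨i, mem_univ _, hp⟩
          rw [hRa, mem_filter] at ha
          have h5 := ha.2 p hpW
          rw [← h2, Nat.mod_mod_of_dvd _ (dvd_prod_of_mem _ hpW), mem_cU_iff Z u U (hWp p hpW).pos] at h5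
          exact h5 i hp
    · intro x hx
      rw [mem_coe] at hx
      unfold SU at hx
      rw [mem_filter] at hx
      rw [mem_coe, hRa, mem_filter, mem_range]
      refine ⟨Nat.mod_lt _ hD1, ?_⟩
      intro p hp
      rw [Nat.mod_mod_of_dvd _ (dvd_prod_of_mem _ hp), mem_cU_iff Z u U (hWp p hp).pos]
      exact fun i hi => hx.2.2 i p hi
  have hone : ∀ a ∈ Ra, |((B a).card : ℝ) - (X : ℝ) / D * P| ≤
      (1 / 2 : ℝ) ^ b * ((X : ℝ) / D * P) + ((2 : ℝ) ^ 2 ^ J0) ^ (C * b) := by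
    intro a _
    exact hC (m * r) b s J0 hb hs (Om Z u) (Sv_Om hZ u) D a A X hD1 hndvd
  have hprod : ∏ p ∈ W, (nU Z u U p : ℝ) / p = (Ra.card : ℝ) / D := by
    rw [prod_div_distrib, hRac, hD]
    push_cast
    rfl
  have hRaD : (Ra.card : ℝ) ≤ D := by
    have : Ra.card ≤ D := by
      refine (card_filter_le _ _).trans ?_
      rw [card_range]
    exact_mod_cast this
  rw [hprod, hcard]
  push_cast
  have h1 : |∑ a ∈ Ra, ((B a).card : ℝ) - X * P * (Ra.card / D)| ≤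
      Ra.card * ((1 / 2 : ℝ) ^ b * ((X : ℝ) / D * P) + ((2 : ℝ) ^ 2 ^ J0) ^ (C * b)) := by
    have h2 : ∑ a ∈ Ra, ((B a).card : ℝ) - X * P * (Ra.card / D) =
        ∑ a ∈ Ra, (((B a).card : ℝ) - (X : ℝ) / D * P) := by
      rw [sum_sub_distrib, sum_const, nsmul_eq_mul]
      ring
    rw [h2]
    refine (abs_sum_le_sum_abs _ _).trans ((sum_le_sum hone).trans ?_)
    rw [sum_const, nsmul_eq_mul]
  refine h1.trans ?_
  have h3 : (0 : ℝ) ≤ ((2 : ℝ) ^ 2 ^ J0) ^ (C * b) := by positivity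
  calc (Ra.card : ℝ) * ((1 / 2 : ℝ) ^ b * ((X : ℝ) / D * P) + ((2 : ℝ) ^ 2 ^ J0) ^ (C * b))
      = (1 / 2 : ℝ) ^ b * (X * P * (Ra.card / D)) + Ra.card * ((2 : ℝ) ^ 2 ^ J0) ^ (C * b) := by ring
    _ ≤ (1 / 2 : ℝ) ^ b * (X * P * (Ra.card / D)) + D * ((2 : ℝ) ^ 2 ^ J0) ^ (C * b) := by
        have := mul_le_mul_of_nonneg_right hRaD h3
        linarith

end Pool.Agent.Y843.HS
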