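import Pool.Agent.Y843.HS.CorA

/-!
# The expansion of the correlations
-/

set_option autoImplicit false

namespace Pool.Agent.Y843.HS

open Finset

open Classical in
/-- the unnormalised product -/
noncomputable def Fx (Z : ℕ → Finset ℕ) (s z R : ℕ) (θ : Finset ℕ → ℝ) {m : ℕ} (u : Fin m → ℕ)
    (x : ℕ) : ℝ :=
  ∏ i, ((if ∀ p ∈ Pr s z, (x + u i) % p ∉ Z p then 1 else 0) * Th Z z R θ (x + u i))

/-- the number of sets with nonzero coefficient, weighted -/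
theorem sum_theta_le {C : ℕ} {Z : ℕ → Finset ℕ} {z R : ℕ} {θ : Finset ℕ → ℝ} (h : Wt C Z z R θ) :
    ∑ V ∈ (Pr z R).powerset, |θ V| * ((∏ p ∈ V, p : ℕ) : ℝ) ≤ (R : ℝ) ^ C * (R : ℝ) ^ C := by
  classical
  have h1 : ∑ V ∈ (Pr z R).powerset, |θ V| * ((∏ p ∈ V, p : ℕ) : ℝ) ≤
      ∑ V ∈ (Pr z R).powerset.filter (fun V => ∏ p ∈ V, p ≤ R ^ C), (R : ℝ) ^ C := by
    rw [sum_filter]
    apply sum_le_sum
    intro V hV
    rw [mem_powerset] at hV
    by_cases hθ : θ V = 0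
    · rw [hθ, abs_zero, zero_mul]
      split_ifs
      · positivity
      · exact le_rfl
    · have h2 := h.lev V hV hθ
      rw [if_pos h2]
      have h3 : ((∏ p ∈ V, p : ℕ) : ℝ) ≤ (R : ℝ) ^ C := by exact_mod_cast h2
      calc |θ V| * ((∏ p ∈ V, p : ℕ) : ℝ) ≤ 1 * ((∏ p ∈ V, p : ℕ) : ℝ) :=
            mul_le_mul_of_nonneg_right (h.abs V) (Nat.cast_nonneg _)
        _ = ((∏ p ∈ V, p : ℕ) : ℝ) := one_mul _
        _ ≤ _ := h3
  refine h1.trans ?_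
  rw [sum_const, nsmul_eq_mul]
  apply mul_le_mul_of_nonneg_right _ (by positivity)
  have h4 := Pool.Agent.TH423.SH.FLIP.card_le (Pr z R) (fun p hp => Pr_prime hp) (R ^ C)
  exact_mod_cast h4

/-- `Th` as a sum over all the subsets -/
theorem Th_eq (Z : ℕ → Finset ℕ) (z R : ℕ) (θ : Finset ℕ → ℝ) (n : ℕ) :
    Th Z z R θ n = ∑ U ∈ (Pr z R).powerset, (if ∀ p ∈ U, n % p ∈ Z p then θ U else 0) := by
  unfold Th
  rw [sum_filter]

theorem Fx_expand (Z : ℕ → Finset ℕ) (s z R : ℕ) (θ : Finset ℕ → ℝ) {m : ℕ} (u : Fin m → ℕ)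
    (A X : ℕ) :
    ∑ x ∈ Ioc A (A + X), Fx Z s z R θ u x =
      ∑ U ∈ Fintype.piFinset (fun _ : Fin m => (Pr z R).powerset),
        (∏ i, θ (U i)) * ((SU Z s z A X u U).card : ℝ) := by
  classical
  have h1 : ∀ x, Fx Z s z R θ u x = ∑ U ∈ Fintype.piFinset (fun _ : Fin m => (Pr z R).powerset),
      (∏ i, θ (U i)) * (if (∀ i, ∀ p ∈ Pr s z, (x + u i) % p ∉ Z p) ∧
        (∀ i, ∀ p ∈ U i, (x + u i) % p ∈ Z p) then 1 else 0) := by
    intro x
    unfold Fx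
    simp_rw [Th_eq, mul_sum]
    rw [prod_univ_sum]
    apply sum_congr rfl
    intro U _
    by_cases h2 : (∀ i, ∀ p ∈ Pr s z, (x + u i) % p ∉ Z p) ∧ (∀ i, ∀ p ∈ U i, (x + u i) % p ∈ Z p)
    · rw [if_pos h2, mul_one]
      apply prod_congr rfl
      intro i _
      rw [if_pos (h2.1 i), if_pos (h2.2 i), one_mul]
    · rw [if_neg h2, mul_zero]
      rw [not_and_or] at h2
      rcases h2 with h2 | h2
      · push Not at h2
        obtain ⟨i, p, hp, hpi⟩ := h2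
        apply prod_eq_zero (mem_univ i)
        rw [if_neg, zero_mul]
        push Not
        exact ⟨p, hp, hpi⟩
      · push Not at h2
        obtain ⟨i, p, hp, hpi⟩ := h2
        apply prod_eq_zero (mem_univ i)
        rw [if_neg (c := ∀ p ∈ U i, (x + u i) % p ∈ Z p), mul_zero]
        push Not
        exact ⟨p, hp, hpi⟩
  simp_rw [h1]
  rw [sum_comm]
  apply sum_congr rfl
  intro U _
  rw [← mul_sum]
  congr 1
  unfold SU
  rw [card_filter]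
  push_cast
  rfl

theorem prod_biUnion_nat_le {m : ℕ} (U : Fin m → Finset ℕ) (hU : ∀ i, ∀ p ∈ U i, 1 ≤ p) :
    ∏ p ∈ univ.biUnion U, p ≤ ∏ i, ∏ p ∈ U i, p := by
  classical
  have key : ∀ T : Finset (Fin m), ∏ p ∈ T.biUnion U, p ≤ ∏ i ∈ T, ∏ p ∈ U i, p := by
    intro T
    induction T using Finset.induction_on with
    | empty => simp
    | insert j T hj ih =>
      rw [biUnion_insert, prod_insert hj]
      have h1 : ∏ p ∈ U j ∪ T.biUnion U, p ≤ (∏ p ∈ U j, p) * ∏ p ∈ T.biUnion U, p := by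
        rw [← prod_union_inter]
        apply Nat.le_mul_of_pos_right
        apply prod_pos
        intro p hp
        rw [mem_inter] at hp
        exact hU j p hp.1
      exact h1.trans (Nat.mul_le_mul_left _ ih)
  exact key univ

theorem one_sub_nonneg {Z : ℕ → Finset ℕ} {p : ℕ} (hZ : ∀ c ∈ Z p, c < p) :
    (0 : ℝ) ≤ 1 - ((Z p).card : ℝ) / p := by
  have h1 : (Z p).card ≤ p := by
    have : Z p ⊆ range p := fun c hc => mem_range.2 (hZ c hc)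
    have := card_le_card this
    rwa [card_range] at this
  rcases Nat.eq_zero_or_pos p with h | h
  · subst h; simp
  · have h2 : ((Z p).card : ℝ) / p ≤ 1 := by
      rw [div_le_one (by exact_mod_cast h)]
      exact_mod_cast h1
    linarith

/-- the correlations before the normalisation -/
theorem corr_raw {CF : ℕ} (hC : FLc CF) {m r b s J0 C : ℕ} (hb : CF * (m * r + 1) ≤ b)
    (hs : CF * (m * r + 1) ≤ s) {R : ℕ} {Z : ℕ → Finset ℕ} (hZ : Sv r s (2 ^ 2 ^ J0) Z)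
    {θ : Finset ℕ → ℝ} (hθ : Wt C Z (2 ^ 2 ^ J0) R θ) (u : Fin m → ℕ) (A X : ℕ) :
    |∑ x ∈ Ioc A (A + X), Fx Z s (2 ^ 2 ^ J0) R θ u x -
      X * (∏ p ∈ Pr s (2 ^ 2 ^ J0), (1 - ((Om Z u p).card : ℝ) / p)) *
        ∑ U ∈ Fintype.piFinset (fun _ : Fin m => (Pr (2 ^ 2 ^ J0) R).powerset), aU Z θ u U| ≤
      (1 / 2 : ℝ) ^ b * (X * (∏ p ∈ Pr s (2 ^ 2 ^ J0), (1 - ((Om Z u p).card : ℝ) / p)) *
        ∑ U ∈ Fintype.piFinset (fun _ : Fin m => (Pr (2 ^ 2 ^ J0) R).powerset), |aU Z θ u U|) +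
      ((R : ℝ) ^ C * (R : ℝ) ^ C) ^ m * ((2 : ℝ) ^ 2 ^ J0) ^ (CF * b) := by
  classical
  set z := 2 ^ 2 ^ J0 with hz
  set P := ∏ p ∈ Pr s z, (1 - ((Om Z u p).card : ℝ) / p) with hP
  set F := Fintype.piFinset (fun _ : Fin m => (Pr z R).powerset) with hF
  have hFU : ∀ U ∈ F, ∀ i, U i ⊆ Pr z R := by
    intro U hU i
    rw [hF, Fintype.mem_piFinset] at hU
    exact mem_powerset.1 (hU i)
  rw [Fx_expand]
  have h1 : ∀ U ∈ F, |(∏ i, θ (U i)) * ((SU Z s z A X u U).card : ℝ) - X * P * aU Z θ u U| ≤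
      (1 / 2 : ℝ) ^ b * (X * P * |aU Z θ u U|) +
        (∏ i, (|θ (U i)| * ((∏ p ∈ U i, p : ℕ) : ℝ))) * ((2 : ℝ) ^ 2 ^ J0) ^ (CF * b) := by
    intro U hU
    have h2 := card_SU hC hb hs hZ u A X U (hFU U hU)
    rw [← hz, ← hP] at h2
    have h3 : (∏ i, θ (U i)) * ((SU Z s z A X u U).card : ℝ) - X * P * aU Z θ u U =
        (∏ i, θ (U i)) * (((SU Z s z A X u U).card : ℝ) -
          X * P * ∏ p ∈ univ.biUnion U, (nU Z u U p : ℝ) / p) := by
      unfold aU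
      ring
    rw [h3, abs_mul]
    have h4 : |aU Z θ u U| = |∏ i, θ (U i)| * ∏ p ∈ univ.biUnion U, (nU Z u U p : ℝ) / p := by
      unfold aU
      rw [abs_mul, abs_of_nonneg (a := ∏ p ∈ univ.biUnion U, (nU Z u U p : ℝ) / p)
        (prod_nonneg fun p _ => by positivity)]
    rw [h4]
    have h5 : |∏ i, θ (U i)| * ((∏ p ∈ univ.biUnion U, p : ℕ) : ℝ) ≤
        ∏ i, (|θ (U i)| * ((∏ p ∈ U i, p : ℕ) : ℝ)) := by
      rw [prod_mul_distrib, abs_prod]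
      apply mul_le_mul_of_nonneg_left _ (prod_nonneg fun i _ => abs_nonneg _)
      have := prod_biUnion_nat_le U (fun i p hp => (Pr_prime (hFU U hU i hp)).one_lt.le)
      exact_mod_cast this
    have h6 : (0 : ℝ) ≤ ((2 : ℝ) ^ 2 ^ J0) ^ (CF * b) := by positivity
    calc |∏ i, θ (U i)| * |((SU Z s z A X u U).card : ℝ) -
          X * P * ∏ p ∈ univ.biUnion U, (nU Z u U p : ℝ) / p|
        ≤ |∏ i, θ (U i)| * ((1 / 2 : ℝ) ^ b * (X * P * ∏ p ∈ univ.biUnion U, (nU Z u U p : ℝ) / p) +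
          (∏ p ∈ univ.biUnion U, p : ℕ) * ((2 : ℝ) ^ 2 ^ J0) ^ (CF * b)) :=
          mul_le_mul_of_nonneg_left h2 (abs_nonneg _)
      _ = (1 / 2 : ℝ) ^ b * (X * P * (|∏ i, θ (U i)| *
          ∏ p ∈ univ.biUnion U, (nU Z u U p : ℝ) / p)) +
          (|∏ i, θ (U i)| * ((∏ p ∈ univ.biUnion U, p : ℕ) : ℝ)) *
            ((2 : ℝ) ^ 2 ^ J0) ^ (CF * b) := by ring
      _ ≤ _ := by
          have := mul_le_mul_of_nonneg_right h5 h6
          linarith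
  have h7 : ∑ U ∈ F, (∏ i, θ (U i)) * ((SU Z s z A X u U).card : ℝ) - X * P * ∑ U ∈ F, aU Z θ u U =
      ∑ U ∈ F, ((∏ i, θ (U i)) * ((SU Z s z A X u U).card : ℝ) - X * P * aU Z θ u U) := by
    rw [sum_sub_distrib, mul_sum]
  rw [h7]
  refine (abs_sum_le_sum_abs _ _).trans ((sum_le_sum h1).trans ?_)
  rw [sum_add_distrib, ← mul_sum, ← mul_sum, ← sum_mul]
  have h8 : ∑ U ∈ F, ∏ i, (|θ (U i)| * ((∏ p ∈ U i, p : ℕ) : ℝ)) =
      (∑ V ∈ (Pr z R).powerset, |θ V| * ((∏ p ∈ V, p : ℕ) : ℝ)) ^ m := by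
    have h12 := prod_univ_sum (fun _ : Fin m => (Pr z R).powerset)
      (fun _ V => |θ V| * ((∏ p ∈ V, p : ℕ) : ℝ))
    rw [prod_const, card_univ, Fintype.card_fin] at h12
    exact h12.symm
  rw [h8]
  have h9 := sum_theta_le hθ
  have h10 : (0 : ℝ) ≤ ∑ V ∈ (Pr z R).powerset, |θ V| * ((∏ p ∈ V, p : ℕ) : ℝ) :=
    sum_nonneg fun V _ => by positivity
  have h11 := mul_le_mul_of_nonneg_right (pow_le_pow_left₀ h10 h9 m)
    (show (0 : ℝ) ≤ ((2 : ℝ) ^ 2 ^ J0) ^ (CF * b) by positivity)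
  linarith

end Pool.Agent.Y843.HS
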